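import Pool.Agent.H15.FD.Max

/-! Random tuples: the combinatorial core. -/

set_option autoImplicit false

namespace Pool.Agent.H15.FD
open Finset

lemma card_hit (A Q : Finset ℕ) (k : ℕ) (j : Fin k) :
    (((Fintype.piFinset (fun _ : Fin k => A)).filter (fun a => a j ∈ Q)).card : ℝ) ≤ Q.card * (A.card : ℝ) ^ (k - 1) := by
  classical
  have h1 : (Fintype.piFinset (fun _ : Fin k => A)).filter (fun a => a j ∈ Q) ⊆
      Fintype.piFinset (Function.update (fun _ : Fin k => A) j Q) := by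
    intro a ha
    rw [mem_filter, Fintype.mem_piFinset] at ha
    rw [Fintype.mem_piFinset]
    intro i
    by_cases hij : i = j
    · subst hij; rw [Function.update_self]; exact ha.2
    · rw [Function.update_of_ne hij]; exact ha.1 i
  have h2 : (Fintype.piFinset (Function.update (fun _ : Fin k => A) j Q)).card = Q.card * A.card ^ (k - 1) := by
    rw [Fintype.card_piFinset, ← mul_prod_erase univ _ (mem_univ j), Function.update_self]
    congr 1
    rw [prod_congr rfl (g := fun _ => A.card) (fun i hi => by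
      rw [mem_erase] at hi
      rw [Function.update_of_ne hi.1])]
    rw [prod_const, card_erase_of_mem (mem_univ j), card_univ, Fintype.card_fin]
  have h3 := card_le_card h1
  rw [h2] at h3
  exact_mod_cast h3

/-- the number of tuples with an entry in `Q` -/
lemma card_hit_any (A Q : Finset ℕ) (k : ℕ) :
    (((Fintype.piFinset (fun _ : Fin k => A)).filter (fun a => ∃ j, a j ∈ Q)).card : ℝ) ≤
      k * (Q.card * (A.card : ℝ) ^ (k - 1)) := by
  classical
  have h1 : (Fintype.piFinset (fun _ : Fin k => A)).filter (fun a => ∃ j, a j ∈ Q) ⊆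
      univ.biUnion (fun j : Fin k => (Fintype.piFinset (fun _ : Fin k => A)).filter (fun a => a j ∈ Q)) := by
    intro a ha
    rw [mem_filter] at ha
    obtain ⟨h1, j, hj⟩ := ha
    rw [mem_biUnion]
    exact ⟨j, mem_univ j, by rw [mem_filter]; exact ⟨h1, hj⟩⟩
  have h2 := (card_le_card h1).trans card_biUnion_le
  calc (((Fintype.piFinset (fun _ : Fin k => A)).filter (fun a => ∃ j, a j ∈ Q)).card : ℝ)
      ≤ ∑ j : Fin k, (((Fintype.piFinset (fun _ : Fin k => A)).filter (fun a => a j ∈ Q)).card : ℝ) := by exact_mod_cast h2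
    _ ≤ ∑ j : Fin k, (Q.card : ℝ) * (A.card : ℝ) ^ (k - 1) := sum_le_sum fun j _ => card_hit A Q k j
    _ = _ := by rw [sum_const, card_univ, Fintype.card_fin, nsmul_eq_mul]

/-- one cell -/
lemma one_cell (A : Finset ℕ) (k : ℕ) (hk : 1 ≤ k) (Y : ℕ → ℝ) (M V μ ν d : ℝ) (hM : 1 ≤ M) (hV : 0 ≤ V) (hd : 0 < d) (hdM : d ≤ M)
    (hY : ∀ a ∈ A, |Y a| ≤ V) (hμ : |∑ a ∈ A, Y a| ≤ μ * A.card) (hν : ((A.filter (fun a => M < |Y a|)).card : ℝ) ≤ ν * A.card)
    (hμd : μ + V * ν ≤ d / 4) :
    ∑ a ∈ (Fintype.piFinset (fun _ : Fin k => A)).filter (fun a => d * k < |∑ j, Y (a j)|), |∑ j, Y (a j)| ≤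
      (A.card : ℝ) ^ k * (k * (2 * M * Real.exp (-(d ^ 2 / (8 * M ^ 2) * k)) + k * V * ν)) := by
  classical
  obtain ⟨Q, hQ⟩ : ∃ Q : Finset ℕ, Q = A.filter (fun a => M < |Y a|) := ⟨_, rfl⟩
  rw [← hQ] at hν
  obtain ⟨Z, hZ⟩ : ∃ Z : ℕ → ℝ, Z = fun a => if M < |Y a| then 0 else Y a := ⟨_, rfl⟩
  have hZM : ∀ a ∈ A, |Z a| ≤ M := by
    intro a _
    rw [hZ]
    simp only
    split_ifs with h
    · rw [abs_zero]; linarith
    · exact not_lt.1 h
  have hZs : |∑ a ∈ A, Z a| ≤ (μ + V * ν) * A.card := by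
    have h1 : ∑ a ∈ A, Z a = ∑ a ∈ A, Y a - ∑ a ∈ Q, Y a := by
      rw [hQ, sum_filter, ← sum_sub_distrib]
      apply sum_congr rfl
      intro a _
      rw [hZ]
      simp only
      split_ifs <;> ring
    have h2 : |∑ a ∈ Q, Y a| ≤ V * (ν * A.card) := by
      calc |∑ a ∈ Q, Y a| ≤ ∑ a ∈ Q, |Y a| := abs_sum_le_sum_abs _ _
        _ ≤ ∑ a ∈ Q, V := sum_le_sum fun a ha => hY a (by rw [hQ, mem_filter] at ha; exact ha.1)
        _ = V * Q.card := by rw [sum_const, nsmul_eq_mul]; ring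
        _ ≤ V * (ν * A.card) := mul_le_mul_of_nonneg_left hν hV
    rw [h1]
    have h3 := abs_sub (∑ a ∈ A, Y a) (∑ a ∈ Q, Y a)
    linarith [add_mul μ (V * ν) (A.card : ℝ)]
  have hch := chern A k Z M (μ + V * ν) d hM hd hdM hZM hZs hμd
  have hAk : 0 ≤ (A.card : ℝ) ^ k := by positivity
  -- split
  obtain ⟨S1, hS1⟩ : ∃ S1 : Finset (Fin k → ℕ), S1 = (Fintype.piFinset (fun _ : Fin k => A)).filter (fun a => d * k < |∑ j, Z (a j)|) := ⟨_, rfl⟩
  obtain ⟨S2, hS2⟩ : ∃ S2 : Finset (Fin k → ℕ), S2 = (Fintype.piFinset (fun _ : Fin k => A)).filter (fun a => ∃ j, a j ∈ Q) := ⟨_, rfl⟩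
  rw [← hS1] at hch
  have hpt : ∀ a ∈ (Fintype.piFinset (fun _ : Fin k => A)).filter (fun a => d * k < |∑ j, Y (a j)|),
      |∑ j, Y (a j)| ≤ (if a ∈ S1 then M * k else 0) + (if a ∈ S2 then V * k else 0) := by
    intro a ha
    rw [mem_filter] at ha
    have haA := Fintype.mem_piFinset.1 ha.1
    by_cases h2 : a ∈ S2
    · rw [if_pos h2]
      have h3 : |∑ j, Y (a j)| ≤ V * k := by
        calc |∑ j, Y (a j)| ≤ ∑ j, |Y (a j)| := abs_sum_le_sum_abs _ _
          _ ≤ ∑ j : Fin k, V := sum_le_sum fun j _ => hY _ (haA j)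
          _ = V * k := by rw [sum_const, card_univ, Fintype.card_fin, nsmul_eq_mul]; ring
      have h4 : (0 : ℝ) ≤ (if a ∈ S1 then M * k else 0) := by
        split_ifs
        · positivity
        · exact le_rfl
      linarith
    · rw [if_neg h2, add_zero]
      have h3 : ∀ j, Z (a j) = Y (a j) := by
        intro j
        rw [hZ]
        simp only
        rw [if_neg]
        intro h4
        apply h2
        rw [hS2, mem_filter]
        exact ⟨ha.1, j, by rw [hQ, mem_filter]; exact ⟨haA j, h4⟩⟩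
      have h4 : ∑ j, Z (a j) = ∑ j, Y (a j) := sum_congr rfl fun j _ => h3 j
      have h5 : a ∈ S1 := by
        rw [hS1, mem_filter, h4]
        exact ha
      rw [if_pos h5, ← h4]
      calc |∑ j, Z (a j)| ≤ ∑ j, |Z (a j)| := abs_sum_le_sum_abs _ _
        _ ≤ ∑ j : Fin k, M := sum_le_sum fun j _ => hZM _ (haA j)
        _ = M * k := by rw [sum_const, card_univ, Fintype.card_fin, nsmul_eq_mul]; ring
  have hk0 : (0 : ℝ) ≤ k := Nat.cast_nonneg k
  calc ∑ a ∈ (Fintype.piFinset (fun _ : Fin k => A)).filter (fun a => d * k < |∑ j, Y (a j)|), |∑ j, Y (a j)|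
      ≤ ∑ a ∈ (Fintype.piFinset (fun _ : Fin k => A)).filter (fun a => d * k < |∑ j, Y (a j)|),
        ((if a ∈ S1 then M * k else 0) + (if a ∈ S2 then V * k else 0)) := sum_le_sum hpt
    _ ≤ ∑ a ∈ Fintype.piFinset (fun _ : Fin k => A), ((if a ∈ S1 then M * k else 0) + (if a ∈ S2 then V * k else 0)) := by
        apply sum_le_sum_of_subset_of_nonneg (filter_subset _ _)
        intro a _ _
        have h1 : (0 : ℝ) ≤ M * k := by positivity
        have h2 : (0 : ℝ) ≤ V * k := by positivity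
        split_ifs <;> linarith
    _ = S1.card * (M * k) + S2.card * (V * k) := by
        rw [sum_add_distrib, ← sum_filter, ← sum_filter, sum_const, sum_const, nsmul_eq_mul, nsmul_eq_mul]
        have e1 : (Fintype.piFinset (fun _ : Fin k => A)).filter (fun a => a ∈ S1) = S1 := by
          rw [hS1]; ext a; simp only [mem_filter]; tauto
        have e2 : (Fintype.piFinset (fun _ : Fin k => A)).filter (fun a => a ∈ S2) = S2 := by
          rw [hS2]; ext a; simp only [mem_filter]; tauto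
        rw [e1, e2]
    _ ≤ (2 * Real.exp (-(d ^ 2 / (8 * M ^ 2) * k)) * (A.card : ℝ) ^ k) * (M * k) + (k * ν * (A.card : ℝ) ^ k) * (V * k) := by
        apply add_le_add
        · exact mul_le_mul_of_nonneg_right hch (by positivity)
        · apply mul_le_mul_of_nonneg_right _ (by positivity)
          have h1 := card_hit_any A Q k
          rw [← hS2] at h1
          refine h1.trans ?_
          have h2 : (A.card : ℝ) ^ k = A.card * (A.card : ℝ) ^ (k - 1) := by
            rw [← pow_succ']; congr 1; omega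
          rw [h2, mul_assoc]
          apply mul_le_mul_of_nonneg_left _ hk0
          have h3 := mul_le_mul_of_nonneg_right hν (by positivity : 0 ≤ (A.card : ℝ) ^ (k - 1))
          linarith [mul_assoc ν (A.card : ℝ) ((A.card : ℝ) ^ (k - 1))]
    _ = _ := by ring

/-- all cells -/
lemma all_cells (A I : Finset ℕ) (k : ℕ) (hk : 1 ≤ k) (Y : ℕ → ℕ → ℝ) (M V μ ν d β R : ℝ) (hM : 1 ≤ M) (hV : 0 ≤ V) (hd : 0 < d) (hdM : d ≤ M)
    (hν : 0 < ν) (hA : A.Nonempty)
    (hY : ∀ a ∈ A, ∀ i ∈ I, |Y a i| ≤ V) (hI : (I.card : ℝ) ≤ R)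
    (h1 : ∀ a ∈ A, ((I.filter (fun i => M < |Y a i|)).card : ℝ) ≤ β * R)
    (h2 : ((I.filter (fun i => μ * A.card < |∑ a ∈ A, Y a i|)).card : ℝ) ≤ β * R)
    (hμd : μ + V * ν ≤ d / 4) :
    ∑ a ∈ Fintype.piFinset (fun _ : Fin k => A), ∑ i ∈ I.filter (fun i => d * k < |∑ j, Y (a j) i|), |∑ j, Y (a j) i| ≤
      (A.card : ℝ) ^ k * (R * (k * (2 * M * Real.exp (-(d ^ 2 / (8 * M ^ 2) * k)) + k * V * ν + V * (β + β / ν)))) := by
  classical
  have hA0 : (0 : ℝ) < A.card := by exact_mod_cast hA.card_pos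
  have hR0 : 0 ≤ R := le_trans (Nat.cast_nonneg _) hI
  -- swap
  have hswap : ∑ a ∈ Fintype.piFinset (fun _ : Fin k => A), ∑ i ∈ I.filter (fun i => d * k < |∑ j, Y (a j) i|), |∑ j, Y (a j) i| =
      ∑ i ∈ I, ∑ a ∈ (Fintype.piFinset (fun _ : Fin k => A)).filter (fun a => d * k < |∑ j, Y (a j) i|), |∑ j, Y (a j) i| := by
    simp_rw [sum_filter]
    exact sum_comm
  rw [hswap]
  -- the exceptional cells
  obtain ⟨E1, hE1⟩ : ∃ E1 : Finset ℕ, E1 = I.filter (fun i => μ * A.card < |∑ a ∈ A, Y a i|) := ⟨_, rfl⟩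
  obtain ⟨E2, hE2⟩ : ∃ E2 : Finset ℕ, E2 = I.filter (fun i => ν * A.card < ((A.filter (fun a => M < |Y a i|)).card : ℝ)) := ⟨_, rfl⟩
  rw [← hE1] at h2
  have hE2c : (E2.card : ℝ) ≤ β / ν * R := by
    have h3 : (E2.card : ℝ) * (ν * A.card) ≤ A.card * (β * R) := by
      calc (E2.card : ℝ) * (ν * A.card) = ∑ i ∈ E2, ν * A.card := by rw [sum_const, nsmul_eq_mul]
        _ ≤ ∑ i ∈ E2, ((A.filter (fun a => M < |Y a i|)).card : ℝ) := by
            apply sum_le_sum
            intro i hi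
            rw [hE2, mem_filter] at hi
            exact hi.2.le
        _ ≤ ∑ i ∈ I, ((A.filter (fun a => M < |Y a i|)).card : ℝ) := by
            apply sum_le_sum_of_subset_of_nonneg
            · rw [hE2]; exact filter_subset _ _
            · intro _ _ _; positivity
        _ = ∑ a ∈ A, ((I.filter (fun i => M < |Y a i|)).card : ℝ) := by
            simp_rw [card_filter]
            push_cast
            exact sum_comm
        _ ≤ ∑ a ∈ A, β * R := sum_le_sum h1
        _ = A.card * (β * R) := by rw [sum_const, nsmul_eq_mul]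
    have h4 : (E2.card : ℝ) * ν ≤ β * R := by
      have h5 : A.card * (E2.card * ν) ≤ A.card * (β * R) := by linarith
      exact le_of_mul_le_mul_left h5 hA0
    rw [div_mul_eq_mul_div, le_div_iff₀ hν]
    exact h4
  have hk0 : (0 : ℝ) ≤ k := Nat.cast_nonneg k
  have hpt : ∀ i ∈ I, ∑ a ∈ (Fintype.piFinset (fun _ : Fin k => A)).filter (fun a => d * k < |∑ j, Y (a j) i|), |∑ j, Y (a j) i| ≤
      (A.card : ℝ) ^ k * (k * (2 * M * Real.exp (-(d ^ 2 / (8 * M ^ 2) * k)) + k * V * ν)) +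
      ((if i ∈ E1 then (A.card : ℝ) ^ k * (V * k) else 0) + (if i ∈ E2 then (A.card : ℝ) ^ k * (V * k) else 0)) := by
    intro i hi
    have hp1 : 0 ≤ (A.card : ℝ) ^ k * (V * k) := by positivity
    have hp2 : 0 ≤ (A.card : ℝ) ^ k * (k * (2 * M * Real.exp (-(d ^ 2 / (8 * M ^ 2) * k)) + k * V * ν)) := by positivity
    by_cases hi1 : i ∈ E1 ∨ i ∈ E2
    · have h3 : ∑ a ∈ (Fintype.piFinset (fun _ : Fin k => A)).filter (fun a => d * k < |∑ j, Y (a j) i|), |∑ j, Y (a j) i| ≤
          (A.card : ℝ) ^ k * (V * k) := by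
        calc ∑ a ∈ (Fintype.piFinset (fun _ : Fin k => A)).filter (fun a => d * k < |∑ j, Y (a j) i|), |∑ j, Y (a j) i|
            ≤ ∑ a ∈ (Fintype.piFinset (fun _ : Fin k => A)).filter (fun a => d * k < |∑ j, Y (a j) i|), (V * k) := by
              apply sum_le_sum
              intro a ha
              rw [mem_filter] at ha
              have haA := Fintype.mem_piFinset.1 ha.1
              calc |∑ j, Y (a j) i| ≤ ∑ j, |Y (a j) i| := abs_sum_le_sum_abs _ _
                _ ≤ ∑ j : Fin k, V := sum_le_sum fun j _ => hY _ (haA j) i hi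
                _ = V * k := by rw [sum_const, card_univ, Fintype.card_fin, nsmul_eq_mul]; ring
          _ ≤ ∑ a ∈ Fintype.piFinset (fun _ : Fin k => A), (V * k) := by
              apply sum_le_sum_of_subset_of_nonneg (filter_subset _ _)
              intro _ _ _; positivity
          _ = (A.card : ℝ) ^ k * (V * k) := by rw [sum_const, nsmul_eq_mul, card_tuples]
      rcases hi1 with h4 | h4
      · rw [if_pos h4]
        have : (0 : ℝ) ≤ (if i ∈ E2 then (A.card : ℝ) ^ k * (V * k) else 0) := by split_ifs <;> linarith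
        linarith
      · rw [if_pos h4]
        have : (0 : ℝ) ≤ (if i ∈ E1 then (A.card : ℝ) ^ k * (V * k) else 0) := by split_ifs <;> linarith
        linarith
    · rw [not_or] at hi1
      rw [if_neg hi1.1, if_neg hi1.2, add_zero, add_zero]
      apply one_cell A k hk (fun a => Y a i) M V μ ν d hM hV hd hdM (fun a ha => hY a ha i hi)
      · by_contra hc
        push Not at hc
        apply hi1.1
        rw [hE1, mem_filter]
        exact ⟨hi, hc⟩
      · by_contra hc
        push Not at hc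
        apply hi1.2
        rw [hE2, mem_filter]
        exact ⟨hi, hc⟩
      · exact hμd
  refine (sum_le_sum hpt).trans ?_
  rw [sum_add_distrib, sum_add_distrib, ← sum_filter, ← sum_filter, sum_const, sum_const, sum_const, nsmul_eq_mul, nsmul_eq_mul, nsmul_eq_mul]
  have e1 : I.filter (fun i => i ∈ E1) = E1 := by
    ext i; rw [mem_filter]; constructor
    · exact fun h => h.2
    · intro h; refine ⟨?_, h⟩; rw [hE1, mem_filter] at h; exact h.1
  have e2 : I.filter (fun i => i ∈ E2) = E2 := by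
    ext i; rw [mem_filter]; constructor
    · exact fun h => h.2
    · intro h; refine ⟨?_, h⟩; rw [hE2, mem_filter] at h; exact h.1
  rw [e1, e2]
  have hp1 : 0 ≤ (A.card : ℝ) ^ k * (V * k) := by positivity
  have hp2 : 0 ≤ (A.card : ℝ) ^ k * (k * (2 * M * Real.exp (-(d ^ 2 / (8 * M ^ 2) * k)) + k * V * ν)) := by positivity
  have b1 := mul_le_mul_of_nonneg_right hI hp2
  have b2 := mul_le_mul_of_nonneg_right h2 hp1
  have b3 := mul_le_mul_of_nonneg_right hE2c hp1
  refine (add_le_add b1 (add_le_add b2 b3)).trans (le_of_eq ?_)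
  ring

end Pool.Agent.H15.FD
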