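import Mathlib

/-! From cells to windows: the deterministic part. -/

set_option autoImplicit false

namespace Pool.Agent.H15.FD
open Finset

lemma cnt (X : Finset ℝ) (η w s h : ℝ) (hh : 0 < h) (hwη : w < η) (hwh : 8 * h ≤ w)
    (hsep : ∀ x ∈ X, ∀ x' ∈ X, x ≠ x' → η ≤ |x - x'|) (Bad : Finset ℕ) (hpos : ∀ x ∈ X, 0 ≤ x + s)
    (hX : ∀ x ∈ X, ∀ i : ℕ, x + s ≤ i * h → i * h ≤ x + s + w → i ∈ Bad) :
    (X.card : ℝ) * (w / (2 * h)) ≤ Bad.card := by
  classical
  obtain ⟨f, hf⟩ : ∃ f : ℝ → Finset ℕ, f = fun x => Icc ⌈(x + s) / h⌉₊ ⌊(x + s + w) / h⌋₊ := ⟨_, rfl⟩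
  have hw : 0 < w := by linarith
  have hmem : ∀ x ∈ X, ∀ i ∈ f x, x + s ≤ i * h ∧ i * h ≤ x + s + w := by
    intro x hx i hi
    rw [hf] at hi
    simp only [mem_Icc] at hi
    have h1 := Nat.ceil_le.1 hi.1
    have h0 : 0 ≤ (x + s + w) / h := by
      have := hpos x hx
      positivity
    have h2 := (Nat.le_floor_iff h0).1 hi.2
    rw [div_le_iff₀ hh] at h1
    rw [le_div_iff₀ hh] at h2
    exact ⟨h1, h2⟩
  have hsub : X.biUnion f ⊆ Bad := by
    intro i hi
    rw [mem_biUnion] at hi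
    obtain ⟨x, hx, hi⟩ := hi
    obtain ⟨h1, h2⟩ := hmem x hx i hi
    exact hX x hx i h1 h2
  have hdis : (X : Set ℝ).PairwiseDisjoint f := by
    intro x hx x' hx' hne
    rw [Function.onFun, disjoint_left]
    intro i hi hi'
    obtain ⟨h1, h2⟩ := hmem x hx i hi
    obtain ⟨h3, h4⟩ := hmem x' hx' i hi'
    have h5 := hsep x hx x' hx' hne
    rw [le_abs] at h5
    rcases h5 with h5 | h5 <;> linarith
  have hcard : ∀ x ∈ X, w / (2 * h) ≤ ((f x).card : ℝ) := by
    intro x hx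
    rw [hf]
    simp only [Nat.card_Icc]
    have h0 : 0 ≤ (x + s) / h := div_nonneg (hpos x hx) hh.le
    have h1 := Nat.ceil_lt_add_one h0
    have h2 := Nat.lt_floor_add_one ((x + s + w) / h)
    have e1 : (x + s + w) / h = (x + s) / h + w / h := by rw [add_div]
    have h3 : 8 ≤ w / h := by rw [le_div_iff₀ hh]; exact hwh
    have h4 : (⌈(x + s) / h⌉₊ : ℝ) ≤ (⌊(x + s + w) / h⌋₊ : ℝ) + 1 := by linarith
    have h5 : ⌈(x + s) / h⌉₊ ≤ ⌊(x + s + w) / h⌋₊ + 1 := by exact_mod_cast h4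
    rw [Nat.cast_sub h5]
    push_cast
    have e2 : w / (2 * h) = w / h / 2 := by field_simp
    rw [e2]
    linarith
  calc (X.card : ℝ) * (w / (2 * h)) = ∑ x ∈ X, w / (2 * h) := by rw [sum_const, nsmul_eq_mul]
    _ ≤ ∑ x ∈ X, ((f x).card : ℝ) := sum_le_sum hcard
    _ = ((X.biUnion f).card : ℝ) := by rw [card_biUnion (fun x hx y hy hne => hdis hx hy hne)]; push_cast; rfl
    _ ≤ Bad.card := by exact_mod_cast card_le_card hsub

noncomputable def gg (F : ℝ → ℝ) (h T : ℝ) (i : ℕ) : ℝ := |F ((i + 1) * h) - F (i * h) - h * T|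

lemma tele (F : ℝ → ℝ) (h T : ℝ) (i m : ℕ) :
    ∑ j ∈ Ico i (i + m), (F (((j : ℕ) + 1 : ℝ) * h) - F (j * h) - h * T) = F (((i + m : ℕ) : ℝ) * h) - F (i * h) - m * (h * T) := by
  induction m with
  | zero => simp
  | succ m ih =>
    rw [← add_assoc, sum_Ico_succ_top (by omega), ih]
    push_cast
    ring

lemma tele_le (F : ℝ → ℝ) (h T : ℝ) (i m : ℕ) :
    |F (((i + m : ℕ) : ℝ) * h) - F (i * h) - m * (h * T)| ≤ ∑ j ∈ Ico i (i + m), gg F h T j := by
  rw [← tele]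
  exact abs_sum_le_sum_abs _ _

/-- the cells from which some sum of deviations is large -/
noncomputable def BadC (F : ℝ → ℝ) (h T t : ℝ) (n0 n : ℕ) : Finset ℕ := by
  classical
  exact (Ico n0 n).filter (fun i => ∃ m : ℕ, 1 ≤ m ∧ i + m ≤ n ∧ t * m ≤ ∑ j ∈ Ico i (i + m), gg F h T j)

lemma det (F : ℝ → ℝ) (hF : Monotone F) (T h N δ η : ℝ) (hT : 0 ≤ T) (hh : 0 < h) (hδ : 0 < δ) (hδ1 : δ ≤ 1)
    (hη : 64 * h ≤ δ * η) (X : Finset ℝ) (hX : ∀ x ∈ X, N ≤ x ∧ x ≤ 2 * N)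
    (hsep : ∀ x ∈ X, ∀ x' ∈ X, x ≠ x' → η ≤ |x - x'|) (n0 n : ℕ) (hn : 3 * N + h ≤ n * h) (hn0 : n0 * h ≤ 7 / 8 * N)
    (hbad : ∀ x ∈ X, ∃ ℓ : ℝ, η ≤ ℓ ∧ ℓ ≤ N ∧ δ * (ℓ * T) < |F (x + ℓ) - F x - ℓ * T|) :
    (X.card : ℝ) * (δ * η / (16 * h)) ≤ 2 * (BadC F h T (δ / 4 * (h * T)) n0 n).card := by
  classical
  obtain ⟨w, hw⟩ : ∃ w : ℝ, w = δ * η / 8 := ⟨_, rfl⟩
  have hη0 : 0 < η := by
    by_contra hc
    push Not at hc
    have : δ * η ≤ 0 := mul_nonpos_of_nonneg_of_nonpos hδ.le hc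
    linarith
  have hwη : w ≤ η / 8 := by rw [hw]; nlinarith only [hδ1, hη0]
  have hwh : 8 * h ≤ w := by rw [hw]; linarith
  have hw2 : w / (2 * h) = δ * η / (16 * h) := by rw [hw]; field_simp; ring
  -- the two types
  obtain ⟨X1, hX1⟩ : ∃ X1 : Finset ℝ, X1 = X.filter (fun x => ∃ ℓ : ℝ, η ≤ ℓ ∧ ℓ ≤ N ∧ δ * (ℓ * T) < F (x + ℓ) - F x - ℓ * T) := ⟨_, rfl⟩
  obtain ⟨X2, hX2⟩ : ∃ X2 : Finset ℝ, X2 = X.filter (fun x => ∃ ℓ : ℝ, η ≤ ℓ ∧ ℓ ≤ N ∧ δ * (ℓ * T) < -(F (x + ℓ) - F x - ℓ * T)) := ⟨_, rfl⟩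
  have hcov : X ⊆ X1 ∪ X2 := by
    intro x hx
    obtain ⟨ℓ, h1, h2, h3⟩ := hbad x hx
    rw [lt_abs] at h3
    rw [mem_union, hX1, hX2, mem_filter, mem_filter]
    rcases h3 with h3 | h3
    · left; exact ⟨hx, ℓ, h1, h2, h3⟩
    · right; exact ⟨hx, ℓ, h1, h2, h3⟩
  have hX1s : X1 ⊆ X := by rw [hX1]; exact filter_subset _ _
  have hX2s : X2 ⊆ X := by rw [hX2]; exact filter_subset _ _
  have hN0 : ∀ x ∈ X, 0 < N ∧ η ≤ N := by
    intro x hx
    obtain ⟨ℓ, h1, h2, h3⟩ := hbad x hx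
    exact ⟨by linarith, by linarith⟩
  have c1 : (X1.card : ℝ) * (w / (2 * h)) ≤ (BadC F h T (δ / 4 * (h * T)) n0 n).card := by
    apply cnt X1 η w (-w) h hh (by linarith) hwh (fun x hx x' hx' hne => hsep x (hX1s hx) x' (hX1s hx') hne)
    · intro x hx
      have h1 := hN0 x (hX1s hx)
      have h2 := hX x (hX1s hx)
      linarith
    · intro x hx i hi1 hi2
      have hN := hN0 x (hX1s hx)
      have hxN := hX x (hX1s hx)
      rw [hX1, mem_filter] at hx
      obtain ⟨hxX, ℓ, hℓ1, hℓ2, hℓ3⟩ := hx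
      have hix : (i : ℝ) * h ≤ x := by linarith
      have hxi : x - w ≤ i * h := by linarith
      have hℓ0 : 0 < ℓ := by linarith
      obtain ⟨e, he⟩ : ∃ e : ℕ, e = ⌈(x + ℓ) / h⌉₊ := ⟨_, rfl⟩
      have he1 : x + ℓ ≤ e * h := by
        rw [he, ← div_le_iff₀ hh]; exact Nat.le_ceil _
      have he2 : (e : ℝ) * h < x + ℓ + h := by
        have h1 := Nat.ceil_lt_add_one (a := (x + ℓ) / h) (div_nonneg (by linarith [hN.1, hxN.1]) hh.le)
        rw [← he] at h1
        have h2 := mul_lt_mul_of_pos_right h1 hh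
        rwa [add_mul, div_mul_cancel₀ _ hh.ne', one_mul] at h2
      have hie : i < e := by
        have : (i : ℝ) * h < e * h := by linarith
        have := lt_of_mul_lt_mul_right this hh.le
        exact_mod_cast this
      have hen : e ≤ n := by
        have : (e : ℝ) * h ≤ n * h := by linarith
        have := le_of_mul_le_mul_right this hh
        exact_mod_cast this
      have hn0i : n0 ≤ i := by
        have : (n0 : ℝ) * h ≤ i * h := by linarith
        have := le_of_mul_le_mul_right this hh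
        exact_mod_cast this
      obtain ⟨m, hm⟩ : ∃ m : ℕ, e = i + m := ⟨e - i, by omega⟩
      unfold BadC
      rw [mem_filter, mem_Ico]
      refine ⟨⟨hn0i, by omega⟩, m, by omega, by omega, ?_⟩
      have h1 := tele_le F h T i m
      rw [← hm] at h1
      have h2 : F (x + ℓ) ≤ F (e * h) := hF he1
      have h3 : F (i * h) ≤ F x := hF hix
      have hmh : (m : ℝ) * h = e * h - i * h := by rw [hm]; push_cast; ring
      have h4 : (m : ℝ) * h ≤ ℓ * (1 + δ / 8 + δ / 64) := by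
        rw [hmh]
        have h5 : w ≤ δ / 8 * ℓ := by rw [hw]; nlinarith only [hℓ1, hδ]
        have h6 : h ≤ δ / 64 * ℓ := by nlinarith only [hη, hℓ1, hδ]
        linarith
      have h5 := mul_le_mul_of_nonneg_right h4 hT
      have h7 := le_abs_self (F (e * h) - F (i * h) - m * (h * T))
      have h8 : δ / 4 * (h * T) * m = δ / 4 * (m * h * T) := by ring
      have h9 : (m : ℝ) * (h * T) = m * h * T := by ring
      have h10 : 0 ≤ ℓ * T := by positivity
      have h11 : δ * (ℓ * T) ≤ ℓ * T := mul_le_of_le_one_left h10 hδ1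
      have h12 : δ * (δ * (ℓ * T)) ≤ δ * (ℓ * T) := by
        apply mul_le_mul_of_nonneg_left h11 hδ.le
      have h13 := mul_le_mul_of_nonneg_left h5 (by linarith : (0 : ℝ) ≤ 1 + δ / 4)
      have e1 : (1 + δ / 4) * (ℓ * (1 + δ / 8 + δ / 64) * T) = ℓ * T + (25 / 64) * (δ * (ℓ * T)) + 9 / 256 * (δ * (δ * (ℓ * T))) := by ring
      rw [e1] at h13
      rw [h8, ← hm]
      rw [h9] at h7 h1
      have h14 : 0 ≤ δ * (ℓ * T) := by positivity
      linarith
  have c2 : (X2.card : ℝ) * (w / (2 * h)) ≤ (BadC F h T (δ / 4 * (h * T)) n0 n).card := by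
    apply cnt X2 η w 0 h hh (by linarith) hwh (fun x hx x' hx' hne => hsep x (hX2s hx) x' (hX2s hx') hne)
    · intro x hx
      have h1 := hN0 x (hX2s hx)
      have h2 := hX x (hX2s hx)
      linarith
    · intro x hx i hi1 hi2
      have hN := hN0 x (hX2s hx)
      have hxN := hX x (hX2s hx)
      rw [hX2, mem_filter] at hx
      obtain ⟨hxX, ℓ, hℓ1, hℓ2, hℓ3⟩ := hx
      have hix : x ≤ (i : ℝ) * h := by linarith
      have hxi : (i : ℝ) * h ≤ x + w := by linarith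
      have hℓ0 : 0 < ℓ := by linarith
      obtain ⟨e, he⟩ : ∃ e : ℕ, e = ⌊(x + ℓ) / h⌋₊ := ⟨_, rfl⟩
      have he1 : (e : ℝ) * h ≤ x + ℓ := by
        rw [he, ← le_div_iff₀ hh]
        exact Nat.floor_le (div_nonneg (by linarith [hN.1, hxN.1]) hh.le)
      have he2 : x + ℓ - h < (e : ℝ) * h := by
        have h1 := Nat.lt_floor_add_one ((x + ℓ) / h)
        rw [← he, div_lt_iff₀ hh] at h1
        linarith
      have h6 : h ≤ δ / 64 * ℓ := by nlinarith only [hη, hℓ1, hδ]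
      have h6' : h ≤ ℓ / 64 := by nlinarith only [h6, hδ1, hℓ0]
      have hie : i < e := by
        have : (i : ℝ) * h < e * h := by linarith
        have := lt_of_mul_lt_mul_right this hh.le
        exact_mod_cast this
      have hen : e ≤ n := by
        have : (e : ℝ) * h ≤ n * h := by linarith
        have := le_of_mul_le_mul_right this hh
        exact_mod_cast this
      have hn0i : n0 ≤ i := by
        have : (n0 : ℝ) * h ≤ i * h := by linarith
        have := le_of_mul_le_mul_right this hh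
        exact_mod_cast this
      obtain ⟨m, hm⟩ : ∃ m : ℕ, e = i + m := ⟨e - i, by omega⟩
      unfold BadC
      rw [mem_filter, mem_Ico]
      refine ⟨⟨hn0i, by omega⟩, m, by omega, by omega, ?_⟩
      have h1 := tele_le F h T i m
      rw [← hm] at h1
      have h2 : F (e * h) ≤ F (x + ℓ) := hF he1
      have h3 : F x ≤ F (i * h) := hF hix
      have hmh : (m : ℝ) * h = e * h - i * h := by rw [hm]; push_cast; ring
      have h5 : w ≤ δ / 8 * ℓ := by rw [hw]; nlinarith only [hℓ1, hδ]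
      have h4 : ℓ * (1 - δ / 8 - δ / 64) ≤ (m : ℝ) * h := by
        rw [hmh]; linarith
      have h4' : (m : ℝ) * h ≤ ℓ := by
        rw [hmh]; linarith
      have h5 := mul_le_mul_of_nonneg_right h4 hT
      have h5' := mul_le_mul_of_nonneg_right h4' hT
      have h7 := neg_le_abs (F (e * h) - F (i * h) - m * (h * T))
      have h8 : δ / 4 * (h * T) * m = δ / 4 * (m * h * T) := by ring
      have h9 : (m : ℝ) * (h * T) = m * h * T := by ring
      have h13 := mul_le_mul_of_nonneg_left h5' (by linarith : (0 : ℝ) ≤ δ / 4)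
      have e1 : ℓ * (1 - δ / 8 - δ / 64) * T = ℓ * T - 9 / 64 * (δ * (ℓ * T)) := by ring
      have e2 : δ / 4 * (ℓ * T) = 1 / 4 * (δ * (ℓ * T)) := by ring
      rw [e1] at h5
      rw [e2] at h13
      rw [h8, ← hm]
      rw [h9] at h7 h1
      have h14 : 0 ≤ δ * (ℓ * T) := by positivity
      linarith
  have h1 : (X.card : ℝ) ≤ X1.card + X2.card := by
    exact_mod_cast (card_le_card hcov).trans (card_union_le _ _)
  rw [← hw2]
  have h2 : 0 ≤ w / (2 * h) := by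
    have : 0 < w := by linarith
    positivity
  have h3 := mul_le_mul_of_nonneg_right h1 h2
  rw [add_mul] at h3
  linarith

end Pool.Agent.H15.FD
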