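import Pool.Agent.H15.FD.Mn
import Pool.Agent.H15.FD.Cb
import Pool.Agent.H15.FD.Det

/-! Assembly. -/

set_option autoImplicit false

namespace Pool.Agent.H15.FD
open Finset Filter

/-- the sum of Chebyshev's functions -/
noncomputable def FF {k : ℕ} (a : Fin k → ℕ) (x : ℝ) : ℝ := ∑ j, Chebyshev.theta (a j * x)

lemma FF_mono {k : ℕ} (a : Fin k → ℕ) : Monotone (FF a) := by
  intro x y hxy
  unfold FF
  apply sum_le_sum
  intro j _
  exact Chebyshev.theta_mono (mul_le_mul_of_nonneg_left hxy (Nat.cast_nonneg _))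

/-- the normalised deviation -/
noncomputable def Yn (P h : ℝ) (a i : ℕ) : ℝ := (St h a i - a * h) / (P * h)

lemma gg_eq {k : ℕ} (a : Fin k → ℕ) (P h : ℝ) (hP : 0 < P) (hh : 0 < h) (i : ℕ) :
    gg (FF a) h (∑ j, (a j : ℝ)) i = P * h * |∑ j, Yn P h (a j) i| := by
  have hPh : 0 < P * h := by positivity
  have h1 : FF a ((i + 1) * h) - FF a (i * h) - h * ∑ j, (a j : ℝ) = P * h * ∑ j, Yn P h (a j) i := by
    unfold FF Yn St
    rw [mul_sum, ← sum_sub_distrib, mul_sum, ← sum_sub_distrib]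
    apply sum_congr rfl
    intro j _
    field_simp
  unfold gg
  rw [h1, abs_mul, abs_of_pos hPh]

lemma St_nonneg (h : ℝ) (hh : 0 ≤ h) (a i : ℕ) : 0 ≤ St h a i := by
  unfold St
  have : Chebyshev.theta (a * (i * h)) ≤ Chebyshev.theta (a * ((i + 1) * h)) := by
    apply Chebyshev.theta_mono
    apply mul_le_mul_of_nonneg_left _ (Nat.cast_nonneg _)
    linarith [add_mul (i : ℝ) 1 h]
  linarith

/-- the trivial bound -/
lemma Yn_bound (P h N b L : ℝ) (a i n : ℕ) (hP : 1 ≤ P) (hh : 0 < h) (hPh : 1 ≤ P * h) (haP : (a : ℝ) ≤ P)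
    (hin : i < n) (hn : n * h ≤ 4 * N) (hN : 1 ≤ N) (hlog : Real.log (4 * (P * N)) ≤ b * L) :
    -1 ≤ Yn P h a i ∧ Yn P h a i ≤ 2 * (b * L) := by
  have hPh0 : 0 < P * h := by linarith
  have ha0 : (0 : ℝ) ≤ a := Nat.cast_nonneg a
  have hi0 : (0 : ℝ) ≤ i := Nat.cast_nonneg i
  constructor
  · unfold Yn
    rw [le_div_iff₀ hPh0]
    have h1 := St_nonneg h hh.le a i
    have h2 : a * h ≤ P * h := mul_le_mul_of_nonneg_right haP hh.le
    linarith
  · unfold Yn
    rw [div_le_iff₀ hPh0]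
    have h0 : (a : ℝ) * (i * h) ≤ a * ((i + 1) * h) := by
      apply mul_le_mul_of_nonneg_left _ ha0
      linarith [add_mul (i : ℝ) 1 h]
    have h1 := theta_diff_le (a * (i * h)) (a * ((i + 1) * h)) (by positivity) h0 (4 * (P * N)) (by
      have h2 : ((i : ℝ) + 1) * h ≤ 4 * N := by
        refine le_trans ?_ hn
        apply mul_le_mul_of_nonneg_right _ hh.le
        exact_mod_cast hin
      have h3 : (a : ℝ) * ((i + 1) * h) ≤ P * (4 * N) := mul_le_mul haP h2 (by positivity) (by linarith)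
      linarith)
    have h2 : (((Ioc ⌊(a : ℝ) * (i * h)⌋₊ ⌊(a : ℝ) * ((i + 1) * h)⌋₊).filter Nat.Prime).card : ℝ) ≤ 2 * (P * h) := by
      have h3 : ((Ioc ⌊(a : ℝ) * (i * h)⌋₊ ⌊(a : ℝ) * ((i + 1) * h)⌋₊).filter Nat.Prime).card ≤
          ⌊(a : ℝ) * ((i + 1) * h)⌋₊ - ⌊(a : ℝ) * (i * h)⌋₊ := by
        refine (card_filter_le _ _).trans ?_
        rw [Nat.card_Ioc]
      have h4 : ((⌊(a : ℝ) * ((i + 1) * h)⌋₊ - ⌊(a : ℝ) * (i * h)⌋₊ : ℕ) : ℝ) ≤ a * h + 1 := by
        rw [Nat.cast_sub (Nat.floor_le_floor h0)]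
        have h5 : (⌊(a : ℝ) * ((i + 1) * h)⌋₊ : ℝ) ≤ a * ((i + 1) * h) := Nat.floor_le (by positivity)
        have h6 := Nat.lt_floor_add_one ((a : ℝ) * (i * h))
        linarith [show (a : ℝ) * ((i + 1) * h) = a * (i * h) + a * h by ring]
      have h5 : a * h ≤ P * h := mul_le_mul_of_nonneg_right haP hh.le
      have h6 := (Nat.cast_le (α := ℝ)).2 h3
      linarith
    have h3 : 0 ≤ Real.log (4 * (P * N)) := Real.log_nonneg (by nlinarith only [hP, hN])
    have h4 := mul_le_mul h2 hlog h3 (by positivity)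
    unfold St
    have h5 : 0 ≤ (a : ℝ) * h := by positivity
    linarith [show 2 * (P * h) * (b * L) = 2 * (b * L) * (P * h) by ring]

/-- from the cells to the points, for one tuple -/
lemma tuple_good {k : ℕ} (hk : 1 ≤ k) (a : Fin k → ℕ) (N P h δ η lam : ℝ) (hP : 0 < P) (hh : 0 < h) (hδ : 0 < δ) (hδ1 : δ ≤ 1)
    (haP : ∀ j, P / 2 ≤ (a j : ℝ)) (hη : 64 * h ≤ δ * η) (X : Finset ℝ) (hX : ∀ x ∈ X, N ≤ x ∧ x ≤ 2 * N)
    (hsep : ∀ x ∈ X, ∀ x' ∈ X, x ≠ x' → η ≤ |x - x'|) (n0 n : ℕ) (hn : 3 * N + h ≤ n * h) (hn0 : n0 * h ≤ 7 / 8 * N)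
    (hbad : ∀ x ∈ X, ∃ ℓ : ℝ, η ≤ ℓ ∧ ℓ ≤ N ∧ δ * (ℓ * ∑ j, (a j : ℝ)) < |FF a (x + ℓ) - FF a x - ℓ * ∑ j, (a j : ℝ)|)
    (hlam : ∑ i ∈ (Ico n0 n).filter (fun i => δ / 16 * k < |∑ j, Yn P h (a j) i|), |∑ j, Yn P h (a j) i| ≤ lam) :
    (X.card : ℝ) ≤ 512 * h * lam / (δ ^ 2 * k * η) := by
  classical
  obtain ⟨T, hT⟩ : ∃ T : ℝ, T = ∑ j, (a j : ℝ) := ⟨_, rfl⟩
  have hk0 : (1 : ℝ) ≤ k := by exact_mod_cast hk
  have hTk : P / 2 * k ≤ T := by
    rw [hT]
    calc P / 2 * k = ∑ j : Fin k, P / 2 := by rw [sum_const, card_univ, Fintype.card_fin, nsmul_eq_mul]; ring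
      _ ≤ ∑ j, (a j : ℝ) := sum_le_sum fun j _ => haP j
  have hT0 : 0 < T := lt_of_lt_of_le (by positivity) hTk
  have hPh : 0 < P * h := by positivity
  rw [← hT] at hbad
  have h1 := det (FF a) (FF_mono a) T h N δ η hT0.le hh hδ hδ1 hη X hX hsep n0 n hn hn0 hbad
  obtain ⟨t, ht⟩ : ∃ t : ℝ, t = δ / 4 * (h * T) := ⟨_, rfl⟩
  rw [← ht] at h1
  have ht0 : P * h * (δ / 16 * k) ≤ t / 2 := by
    rw [ht]
    have h2 := mul_le_mul_of_nonneg_left hTk (by positivity : 0 ≤ δ * h / 8)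
    linarith [show δ * h / 8 * (P / 2 * k) = P * h * (δ / 16 * k) by ring, show δ / 4 * (h * T) / 2 = δ * h / 8 * T by ring]
  have ht00 : 0 < t := by rw [ht]; positivity
  obtain ⟨g, hg⟩ : ∃ g : ℕ → ℝ, g = fun i => if t / 2 < gg (FF a) h T i then gg (FF a) h T i else 0 := ⟨_, rfl⟩
  have hgn : ∀ i, 0 ≤ gg (FF a) h T i := fun i => by unfold gg; exact abs_nonneg _
  have hg0 : ∀ i, 0 ≤ g i := by
    intro i; rw [hg]; simp only
    split_ifs
    · exact hgn i
    · exact le_rfl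
  have hgl : ∀ i, gg (FF a) h T i ≤ g i + t / 2 := by
    intro i; rw [hg]; simp only
    split_ifs with h2
    · linarith
    · rw [not_lt] at h2; linarith
  have h2 := maxineq g hg0 (t / 2) n (BadC (FF a) h T t n0 n) (by
    intro i hi
    unfold BadC at hi
    rw [mem_filter, mem_Ico] at hi
    obtain ⟨_, m, hm1, hm2, hm3⟩ := hi
    refine ⟨m, hm1, hm2, ?_⟩
    have h3 : ∑ j ∈ Ico i (i + m), gg (FF a) h T j ≤ ∑ j ∈ Ico i (i + m), g j + m * (t / 2) := by
      calc ∑ j ∈ Ico i (i + m), gg (FF a) h T j ≤ ∑ j ∈ Ico i (i + m), (g j + t / 2) := sum_le_sum fun j _ => hgl j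
        _ = _ := by rw [sum_add_distrib, sum_const, Nat.card_Ico, nsmul_eq_mul]; congr 3; omega
    linarith) n0 (by
    intro i hi
    unfold BadC at hi
    rw [mem_filter, mem_Ico] at hi
    exact hi.1.1)
  have h3 : ∑ i ∈ Ico n0 n, g i ≤ P * h * lam := by
    have h4 : ∑ i ∈ Ico n0 n, g i ≤ ∑ i ∈ (Ico n0 n).filter (fun i => δ / 16 * k < |∑ j, Yn P h (a j) i|), P * h * |∑ j, Yn P h (a j) i| := by
      rw [sum_filter]
      apply sum_le_sum
      intro i _
      rw [hg]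
      simp only
      rw [hT, gg_eq a P h hP hh i]
      by_cases h5 : t / 2 < P * h * |∑ j, Yn P h (a j) i|
      · rw [if_pos h5, if_pos]
        have h6 : P * h * (δ / 16 * k) < P * h * |∑ j, Yn P h (a j) i| := by linarith
        exact lt_of_mul_lt_mul_left h6 hPh.le
      · rw [if_neg h5]
        split_ifs
        · positivity
        · exact le_rfl
    refine h4.trans ?_
    rw [← mul_sum]
    exact mul_le_mul_of_nonneg_left hlam hPh.le
  have h4 : P * h * (δ / 16 * k) * (BadC (FF a) h T t n0 n).card ≤ P * h * lam :=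
    (mul_le_mul_of_nonneg_right ht0 (Nat.cast_nonneg _)).trans (h2.trans h3)
  have h5 : δ / 16 * k * (BadC (FF a) h T t n0 n).card ≤ lam := by
    have h6 : P * h * (δ / 16 * k * (BadC (FF a) h T t n0 n).card) ≤ P * h * lam := by linarith
    exact le_of_mul_le_mul_left h6 hPh
  have hη0 : 0 < η := by
    by_contra hc
    push Not at hc
    have : δ * η ≤ 0 := mul_nonpos_of_nonneg_of_nonpos hδ.le hc
    linarith
  rw [le_div_iff₀ (by positivity)]
  have h6 := mul_le_mul_of_nonneg_left h1 (by positivity : 0 ≤ 16 * h * (δ * k))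
  have e1 : 16 * h * (δ * k) * (X.card * (δ * η / (16 * h))) = X.card * (δ ^ 2 * k * η) := by field_simp
  rw [e1] at h6
  refine h6.trans ?_
  have h7 := mul_le_mul_of_nonneg_left h5 (by positivity : 0 ≤ 512 * h)
  linarith

/-- the main step: few bad tuples -/
theorem main (B : ℕ) : ∃ (C : ℕ) (N₀ : ℝ), ∀ (N P δ ε : ℝ) (A : Finset ℕ) (k : ℕ), N₀ ≤ N → Real.log N ^ C ≤ P → P ≤ N ^ B →
    (∀ a ∈ A, a.Prime ∧ P / 2 < a ∧ (a : ℝ) ≤ P) → P / Real.log N ^ B ≤ A.card →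
    1 / Real.log N ^ B ≤ δ → δ ≤ 1 → 1 ≤ k → (k : ℝ) ≤ Real.log N ^ B →
    ε = 128 / δ * Real.exp (-(δ ^ 2 * k / 65536)) + 1 / Real.log N ^ B →
    ∃ E ⊆ Fintype.piFinset (fun _ : Fin k => A), (E.card : ℝ) ≤ ε * (A.card : ℝ) ^ k ∧
      ∀ a ∈ Fintype.piFinset (fun _ : Fin k => A), a ∉ E → ∀ (η : ℝ) (X : Finset ℝ), Real.log N ^ C / P ≤ η →
        (∀ x ∈ X, N ≤ x ∧ x ≤ 2 * N) → (∀ x ∈ X, ∀ x' ∈ X, x ≠ x' → η ≤ |x - x'|) →
        (∀ x ∈ X, ∃ ℓ : ℝ, η ≤ ℓ ∧ ℓ ≤ N ∧ δ * (ℓ * ∑ j, (a j : ℝ)) < |FF a (x + ℓ) - FF a x - ℓ * ∑ j, (a j : ℝ)|) →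
        (X.card : ℝ) ≤ ε * (N / η) := by
  classical
  obtain ⟨B₁, hB₁⟩ : ∃ B₁ : ℕ, B₁ = 10 * B + 10 := ⟨_, rfl⟩
  obtain ⟨C₁, hC₁⟩ : ∃ C₁ : ℕ, C₁ = B₁ + 21 := ⟨_, rfl⟩
  obtain ⟨N₁, hN₁⟩ := bad_cells B B₁ 1 one_pos le_rfl
  obtain ⟨C₂, N₂, hN₂⟩ := mean_cells B B₁
  obtain ⟨b, hb⟩ : ∃ b : ℝ, b = (B : ℝ) + 2 := ⟨_, rfl⟩
  have hb2 : 2 ≤ b := by rw [hb]; have : (0 : ℝ) ≤ B := Nat.cast_nonneg B; linarith
  have hev : ∀ᶠ N : ℝ in atTop, N₁ ≤ N ∧ N₂ ≤ N ∧ 20000 * b + 100 ≤ Real.log N ∧ 100 ≤ N :=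
    (eventually_ge_atTop _).and ((eventually_ge_atTop _).and
      ((Real.tendsto_log_atTop.eventually_ge_atTop _).and (eventually_ge_atTop _)))
  obtain ⟨N₀, hN₀⟩ := eventually_atTop.1 hev
  refine ⟨C₂ + C₁ + B + 1, N₀, ?_⟩
  intro N P δ ε A k hN hCP hPN hA hcard hδL hδ1 hk hkL hε
  obtain ⟨hE1, hE2, hE3, hE4⟩ := hN₀ N hN
  have hcells := hN₁ N P
  have hmean := hN₂ N P
  obtain ⟨L, hL⟩ : ∃ L : ℝ, L = Real.log N := ⟨_, rfl⟩
  rw [← hL] at hE3 hCP hcard hδL hkL hε hcells hmean ⊢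
  have hL100 : 100 ≤ L := by linarith
  have hL0 : 0 < L := by linarith
  have hL1 : 1 ≤ L := by linarith
  have hNp : 0 < N := by linarith
  have hLB : 1 ≤ L ^ B := one_le_pow₀ hL1
  have hδ0 : 0 < δ := lt_of_lt_of_le (by positivity) hδL
  have hC1P : L ^ C₁ ≤ P := (pow_le_pow_right₀ hL1 (by omega)).trans hCP
  have hC2P : L ^ C₂ ≤ P := (pow_le_pow_right₀ hL1 (by omega)).trans hCP
  have hLC1 : 1 ≤ L ^ C₁ := one_le_pow₀ hL1
  have hP1 : 1 ≤ P := hLC1.trans hC1P
  have hP0 : 0 < P := by linarith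
  have hk0 : (1 : ℝ) ≤ k := by exact_mod_cast hk
  -- cells
  obtain ⟨h, hh⟩ : ∃ h : ℝ, h = L ^ C₁ / P := ⟨_, rfl⟩
  have hh0 : 0 < h := by rw [hh]; positivity
  have hh1 : h ≤ 1 := by rw [hh, div_le_one hP0]; exact hC1P
  have hPh : P * h = L ^ C₁ := by rw [hh]; field_simp
  have hPh1 : 1 ≤ P * h := by rw [hPh]; exact hLC1
  have hPh0 : 0 < P * h := by linarith
  have hPinv : 1 / P ≤ h := by rw [hh]; exact div_le_div_of_nonneg_right hLC1 hP0.le
  obtain ⟨n0, hn0⟩ : ∃ n0 : ℕ, n0 = ⌈N / (2 * h)⌉₊ := ⟨_, rfl⟩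
  obtain ⟨n, hn⟩ : ∃ n : ℕ, n = ⌊4 * N / h⌋₊ := ⟨_, rfl⟩
  have hn1 : (n : ℝ) * h ≤ 4 * N := by
    rw [hn, ← le_div_iff₀ hh0]; exact Nat.floor_le (by positivity)
  have hn2 : 4 * N - h < n * h := by
    have := Nat.lt_floor_add_one (4 * N / h)
    rw [← hn, div_lt_iff₀ hh0] at this
    linarith
  have hn01 : N / 2 ≤ n0 * h := by
    have h1 := Nat.le_ceil (N / (2 * h))
    rw [← hn0, div_le_iff₀ (by positivity)] at h1
    linarith
  have hn02 : n0 * h ≤ N / 2 + h := by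
    have h1 := Nat.ceil_lt_add_one (a := N / (2 * h)) (by positivity)
    rw [← hn0] at h1
    have h2 := mul_lt_mul_of_pos_right h1 hh0
    have h3 : (N / (2 * h) + 1) * h = N / 2 + h := by field_simp
    linarith
  obtain ⟨R, hR⟩ : ∃ R : ℝ, R = 4 * N / h := ⟨_, rfl⟩
  have hR0 : 0 < R := by rw [hR]; positivity
  have hI : ((Ico n0 n).card : ℝ) ≤ R := by
    rw [Nat.card_Ico]
    have h1 : ((n - n0 : ℕ) : ℝ) ≤ n := by exact_mod_cast Nat.sub_le _ _
    refine h1.trans ?_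
    rw [hn, hR]
    exact Nat.floor_le (by positivity)
  have hAne : A.Nonempty := by
    rw [← card_pos]
    have : (0 : ℝ) < A.card := lt_of_lt_of_le (by positivity) hcard
    exact_mod_cast this
  have hA0 : (0 : ℝ) < A.card := by exact_mod_cast hAne.card_pos
  -- parameters
  obtain ⟨V, hV⟩ : ∃ V : ℝ, V = 2 * (b * L) := ⟨_, rfl⟩
  obtain ⟨β, hβ⟩ : ∃ β : ℝ, β = 1 / L ^ B₁ := ⟨_, rfl⟩
  obtain ⟨ν, hν⟩ : ∃ ν : ℝ, ν = 1 / L ^ (5 * B + 3) := ⟨_, rfl⟩
  have hV1 : 1 ≤ V := by rw [hV]; nlinarith only [hb2, hL1]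
  have hβ0 : 0 < β := by rw [hβ]; positivity
  have hν0 : 0 < ν := by rw [hν]; positivity
  have hlog : Real.log (4 * (P * N)) ≤ b * L := by
    have h1 : 4 * (P * N) ≤ N ^ (B + 2) := by
      have h2 : 4 * (P * N) ≤ N ^ B * (4 * N) := by
        have := mul_le_mul_of_nonneg_right hPN hNp.le
        linarith
      refine h2.trans ?_
      rw [pow_add]
      refine mul_le_mul_of_nonneg_left ?_ (by positivity)
      nlinarith only [hE4]
    refine (Real.log_le_log (by positivity) h1).trans (le_of_eq ?_)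
    rw [Real.log_pow, ← hL, hb]
    push_cast
    ring
  have hbd : ∀ a ∈ A, ∀ i ∈ Ico n0 n, -1 ≤ Yn P h a i ∧ Yn P h a i ≤ V := by
    intro a ha i hi
    rw [mem_Ico] at hi
    rw [hV]
    exact Yn_bound P h N b L a i n hP1 hh0 hPh1 (hA a ha).2.2 hi.2 hn1 (by linarith) hlog
  have hAll := all_cells A (Ico n0 n) k hk (Yn P h) 4 V β ν (δ / 16) β R (by norm_num) (by linarith) (by positivity) (by linarith)
    hν0 hAne (by
      intro a ha i hi
      obtain ⟨h1, h2⟩ := hbd a ha i hi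
      rw [abs_le]; constructor <;> linarith) hI (by
      intro a ha
      have hahL : L ^ (B₁ + 20) ≤ a * h := by
        have h1 : P / 2 * h ≤ a * h := mul_le_mul_of_nonneg_right (hA a ha).2.1.le hh0.le
        have h2 : P / 2 * h = L ^ (B₁ + 20) * (L / 2) := by
          have : P / 2 * h = (P * h) / 2 := by ring
          rw [this, hPh, hC₁, pow_succ]; ring
        have h3 : 0 < L ^ (B₁ + 20) := by positivity
        have h4 : L ^ (B₁ + 20) * 1 ≤ L ^ (B₁ + 20) * (L / 2) := mul_le_mul_of_nonneg_left (by linarith) h3.le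
        linarith
      have h1 := hcells h a n0 n hE1 hP1 hPN (hA a ha).2.1 (hA a ha).2.2 hahL hh1 hn01 hn1
      have h2 : N / h / L ^ B₁ ≤ β * R := by
        rw [hβ, hR]
        have : 1 / L ^ B₁ * (4 * N / h) = 4 * (N / h / L ^ B₁) := by ring
        rw [this]
        have : 0 < N / h / L ^ B₁ := by positivity
        linarith
      refine le_trans ?_ (h1.trans h2)
      rw [Nat.cast_le]
      apply card_le_card
      intro i hi
      rw [mem_filter] at hi ⊢
      refine ⟨hi.1, ?_⟩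
      obtain ⟨h3, h4⟩ := hbd a ha i hi.1
      have h5 : 4 < Yn P h a i := by
        rcases lt_abs.1 hi.2 with h5 | h5
        · exact h5
        · linarith
      unfold Yn at h5
      rw [lt_div_iff₀ hPh0] at h5
      have h6 : (a : ℝ) * h ≤ P * h := mul_le_mul_of_nonneg_right (hA a ha).2.2 hh0.le
      change (4 + 1) * ((a : ℝ) * h) < St h a i
      linarith) (by
      have h1 := hmean h A n0 n hE2 hC2P hPN hA hcard hPinv hh1 hn01 hn1
      have h2 : N / h / L ^ B₁ ≤ β * R := by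
        rw [hβ, hR]
        have : 1 / L ^ B₁ * (4 * N / h) = 4 * (N / h / L ^ B₁) := by ring
        rw [this]
        have : 0 < N / h / L ^ B₁ := by positivity
        linarith
      refine le_trans ?_ (h1.trans h2)
      rw [Nat.cast_le]
      apply card_le_card
      intro i hi
      rw [mem_filter] at hi ⊢
      refine ⟨hi.1, ?_⟩
      have h3 : ∑ a ∈ A, Yn P h a i = (∑ a ∈ A, St h a i - h * ∑ a ∈ A, (a : ℝ)) / (P * h) := by
        unfold Yn
        rw [← sum_div, sum_sub_distrib, mul_sum]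
        congr 2
        apply sum_congr rfl; intro a _; ring
      rw [h3, abs_div, abs_of_pos hPh0, lt_div_iff₀ hPh0, hβ] at hi
      refine lt_of_le_of_lt ?_ hi.2
      have h4 : ∑ a ∈ A, (a : ℝ) ≤ A.card * P := by
        calc ∑ a ∈ A, (a : ℝ) ≤ ∑ a ∈ A, P := sum_le_sum fun a ha => (hA a ha).2.2
          _ = _ := by rw [sum_const, nsmul_eq_mul]
      have h5 := mul_le_mul_of_nonneg_left h4 (by positivity : 0 ≤ h / L ^ B₁)
      linarith [show h / L ^ B₁ * ∑ a ∈ A, (a : ℝ) = h * (∑ a ∈ A, (a : ℝ)) / L ^ B₁ by ring,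
        show h / L ^ B₁ * (A.card * P) = 1 / L ^ B₁ * A.card * (P * h) by ring]) (by
      -- `β + V ν ≤ δ / 64`
      have h1 : 128 * (β + V * ν) ≤ δ := by
        refine le_trans ?_ hδL
        rw [hβ, hV, hν]
        have h2 : 1 / L ^ B₁ ≤ 1 / L ^ (B + 1) :=
          one_div_le_one_div_of_le (by positivity) (pow_le_pow_right₀ hL1 (by omega))
        have h3 : 2 * (b * L) * (1 / L ^ (5 * B + 3)) ≤ 2 * b * (1 / L ^ (B + 1)) := by
          have h4 : L ^ (5 * B + 3) = L * L ^ (5 * B + 2) := by rw [← pow_succ']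
          have h5 : 2 * (b * L) * (1 / L ^ (5 * B + 3)) = 2 * b * (1 / L ^ (5 * B + 2)) := by rw [h4]; field_simp
          rw [h5]
          apply mul_le_mul_of_nonneg_left _ (by linarith)
          exact one_div_le_one_div_of_le (by positivity) (pow_le_pow_right₀ hL1 (by omega))
        have h4 : 1 / L ^ B = L * (1 / L ^ (B + 1)) := by rw [pow_succ]; field_simp
        rw [h4]
        have h5 : 0 < 1 / L ^ (B + 1) := by positivity
        have h6 : (128 + 256 * b) * (1 / L ^ (B + 1)) ≤ L * (1 / L ^ (B + 1)) := by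
          apply mul_le_mul_of_nonneg_right _ h5.le
          linarith
        linarith
      linarith)
  -- the total
  obtain ⟨ck, hck⟩ : ∃ ck : ℝ, ck = Real.exp (-(δ ^ 2 * k / 65536)) := ⟨_, rfl⟩
  have hck0 : 0 < ck := by rw [hck]; exact Real.exp_pos _
  have hck2 : Real.exp (-((δ / 16) ^ 2 / (8 * 4 ^ 2) * k)) = ck ^ 2 := by
    rw [hck, ← Real.exp_nat_mul]
    congr 1
    push_cast
    ring
  rw [← hck] at hε
  rw [hck2] at hAll
  have hε0 : 0 < ε := by rw [hε]; positivity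
  have key : 2048 * (2 * 4 * ck ^ 2 + k * V * ν + V * (β + β / ν)) ≤ ε ^ 2 * δ ^ 2 := by
    have h1 : 16384 * ck ^ 2 + 1 / L ^ (4 * B) ≤ ε ^ 2 * δ ^ 2 := by
      have h2 : (128 / δ * ck) ^ 2 + (1 / L ^ B) ^ 2 ≤ ε ^ 2 := by
        rw [hε]
        have h3 : 0 ≤ 128 / δ * ck := by positivity
        have h4 : 0 ≤ 1 / L ^ B := by positivity
        nlinarith only [h3, h4]
      have h3 := mul_le_mul_of_nonneg_right h2 (sq_nonneg δ)
      have h4 : ((128 / δ * ck) ^ 2 + (1 / L ^ B) ^ 2) * δ ^ 2 = 16384 * ck ^ 2 + (1 / L ^ B) ^ 2 * δ ^ 2 := by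
        field_simp
        ring
      rw [h4] at h3
      have h5 : (1 / L ^ B) ^ 2 ≤ δ ^ 2 := pow_le_pow_left₀ (by positivity) hδL 2
      have h6 : (1 / L ^ B) ^ 2 * (1 / L ^ B) ^ 2 ≤ (1 / L ^ B) ^ 2 * δ ^ 2 := mul_le_mul_of_nonneg_left h5 (by positivity)
      have h7 : (1 / L ^ B) ^ 2 * (1 / L ^ B) ^ 2 = 1 / L ^ (4 * B) := by
        rw [← pow_add, one_div_pow, ← pow_mul]; congr 2; ring
      linarith
    have h2 : 2048 * (k * V * ν + V * (β + β / ν)) ≤ 1 / L ^ (4 * B) := by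
      have e0 : 1 / L ^ (4 * B) = L * (1 / L ^ (4 * B + 1)) := by rw [pow_succ]; field_simp
      have a1 : k * V * ν ≤ 2 * b * (1 / L ^ (4 * B + 1)) := by
        calc k * V * ν ≤ L ^ B * V * ν := by
              apply mul_le_mul_of_nonneg_right _ hν0.le
              exact mul_le_mul_of_nonneg_right hkL (by linarith)
          _ = 2 * b * (1 / L ^ (4 * B + 2)) := by
              rw [hV, hν]
              have : L ^ (5 * B + 3) = L ^ B * (L * L ^ (4 * B + 2)) := by rw [← pow_succ', ← pow_add]; congr 1; ring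
              rw [this]; field_simp
          _ ≤ _ := by
              apply mul_le_mul_of_nonneg_left _ (by linarith)
              exact one_div_le_one_div_of_le (by positivity) (pow_le_pow_right₀ hL1 (by omega))
      have a2 : V * β ≤ 2 * b * (1 / L ^ (4 * B + 1)) := by
        calc V * β = 2 * b * (1 / L ^ (10 * B + 9)) := by
              rw [hV, hβ, hB₁]
              have : L ^ (10 * B + 10) = L * L ^ (10 * B + 9) := by rw [← pow_succ']
              rw [this]; field_simp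
          _ ≤ _ := by
              apply mul_le_mul_of_nonneg_left _ (by linarith)
              exact one_div_le_one_div_of_le (by positivity) (pow_le_pow_right₀ hL1 (by omega))
      have a3 : V * (β / ν) ≤ 2 * b * (1 / L ^ (4 * B + 1)) := by
        calc V * (β / ν) = 2 * b * (1 / L ^ (5 * B + 6)) := by
              rw [hV, hβ, hν, hB₁]
              have : L ^ (10 * B + 10) = L * (L ^ (5 * B + 3) * L ^ (5 * B + 6)) := by rw [← pow_add, ← pow_succ']; congr 1; ring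
              rw [this]; field_simp
          _ ≤ _ := by
              apply mul_le_mul_of_nonneg_left _ (by linarith)
              exact one_div_le_one_div_of_le (by positivity) (pow_le_pow_right₀ hL1 (by omega))
      have a4 : 12288 * b * (1 / L ^ (4 * B + 1)) ≤ L * (1 / L ^ (4 * B + 1)) := by
        apply mul_le_mul_of_nonneg_right _ (by positivity)
        linarith
      rw [e0]
      linarith [mul_add V β (β / ν)]
    linarith
  obtain ⟨lam, hlam⟩ : ∃ lam : ℝ, lam = ε * δ ^ 2 * k * N / (512 * h) := ⟨_, rfl⟩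
  have hlam0 : 0 < lam := by rw [hlam]; positivity
  obtain ⟨Dv, hDv⟩ : ∃ Dv : (Fin k → ℕ) → ℝ, Dv = fun a => ∑ i ∈ (Ico n0 n).filter (fun i => δ / 16 * k < |∑ j, Yn P h (a j) i|), |∑ j, Yn P h (a j) i| := ⟨_, rfl⟩
  have hDv0 : ∀ a, 0 ≤ Dv a := by
    intro a; rw [hDv]; exact sum_nonneg fun _ _ => abs_nonneg _
  refine ⟨(Fintype.piFinset (fun _ : Fin k => A)).filter (fun a => lam < Dv a), filter_subset _ _, ?_, ?_⟩
  · have h1 : (((Fintype.piFinset (fun _ : Fin k => A)).filter (fun a => lam < Dv a)).card : ℝ) * lam ≤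
        ∑ a ∈ Fintype.piFinset (fun _ : Fin k => A), Dv a := by
      calc (((Fintype.piFinset (fun _ : Fin k => A)).filter (fun a => lam < Dv a)).card : ℝ) * lam
          = ∑ a ∈ (Fintype.piFinset (fun _ : Fin k => A)).filter (fun a => lam < Dv a), lam := by rw [sum_const, nsmul_eq_mul]
        _ ≤ ∑ a ∈ (Fintype.piFinset (fun _ : Fin k => A)).filter (fun a => lam < Dv a), Dv a := by
            apply sum_le_sum
            intro a ha
            rw [mem_filter] at ha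
            exact ha.2.le
        _ ≤ _ := sum_le_sum_of_subset_of_nonneg (filter_subset _ _) (fun a _ _ => hDv0 a)
    have h2 : ∑ a ∈ Fintype.piFinset (fun _ : Fin k => A), Dv a ≤
        (A.card : ℝ) ^ k * (R * (k * (2 * 4 * ck ^ 2 + k * V * ν + V * (β + β / ν)))) := by
      rw [hDv]; exact hAll
    have h3 : R * (k * (2 * 4 * ck ^ 2 + k * V * ν + V * (β + β / ν))) ≤ ε * lam := by
      have h4 := mul_le_mul_of_nonneg_left key (by positivity : 0 ≤ R * k / 2048)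
      have e1 : R * k / 2048 * (2048 * (2 * 4 * ck ^ 2 + k * V * ν + V * (β + β / ν))) =
        R * (k * (2 * 4 * ck ^ 2 + k * V * ν + V * (β + β / ν))) := by ring
      have e2 : R * k / 2048 * (ε ^ 2 * δ ^ 2) = ε * lam := by rw [hR, hlam]; field_simp; ring
      rw [e1, e2] at h4
      exact h4
    have h4 : (((Fintype.piFinset (fun _ : Fin k => A)).filter (fun a => lam < Dv a)).card : ℝ) * lam ≤ ε * (A.card : ℝ) ^ k * lam := by
      have h5 := mul_le_mul_of_nonneg_left h3 (by positivity : 0 ≤ (A.card : ℝ) ^ k)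
      linarith
    exact le_of_mul_le_mul_right h4 hlam0
  · intro a ha haE η X hη hX hsep hbad
    rw [mem_filter, not_and] at haE
    have hDa := not_lt.1 (haE ha)
    rw [hDv] at hDa
    have haA := Fintype.mem_piFinset.1 ha
    have h64 : 64 * h ≤ δ * η := by
      have h1 : L ^ (C₂ + C₁ + B + 1) / P = h * (L ^ C₂ * L * L ^ B) := by
        rw [hh, pow_succ, pow_add, pow_add]; field_simp
      rw [h1] at hη
      have h2 : 1 ≤ L ^ C₂ := one_le_pow₀ hL1
      have h3 : h * (L * L ^ B) ≤ η := by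
        refine le_trans ?_ hη
        apply mul_le_mul_of_nonneg_left _ hh0.le
        have h4 : 0 ≤ L * L ^ B := by positivity
        have h5 := mul_le_mul_of_nonneg_right h2 h4
        linarith [mul_assoc (L ^ C₂) L (L ^ B)]
      have h4 : 1 ≤ δ * L ^ B := by
        rw [div_le_iff₀ (by positivity)] at hδL
        exact hδL
      have h5 := mul_le_mul_of_nonneg_left h3 hδ0.le
      have h6 := mul_le_mul_of_nonneg_left h4 (by positivity : 0 ≤ h * L)
      have h7 := mul_le_mul_of_nonneg_left hL100 hh0.le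
      linarith [show δ * (h * (L * L ^ B)) = h * L * (δ * L ^ B) by ring]
    have h1 := tuple_good hk a N P h δ η lam hP0 hh0 hδ0 hδ1 (fun j => (hA _ (haA j)).2.1.le) h64 X hX hsep n0 n
      (by linarith) (by linarith) hbad hDa
    refine h1.trans (le_of_eq ?_)
    have hη0 : 0 < η := by
      by_contra hc
      push Not at hc
      have : δ * η ≤ 0 := mul_nonpos_of_nonneg_of_nonpos hδ0.le hc
      linarith
    rw [hlam]
    field_simp

end Pool.Agent.H15.FD
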