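import Mathlib

/-! One-sided maximal inequality and the Chernoff bound for tuples. -/

set_option autoImplicit false

namespace Pool.Agent.H15.FD
open Finset

/-- the one-sided discrete maximal inequality -/
lemma maxineq (g : ℕ → ℝ) (hg : ∀ i, 0 ≤ g i) (t : ℝ) (n : ℕ) (Bad : Finset ℕ)
    (hB : ∀ i ∈ Bad, ∃ m : ℕ, 1 ≤ m ∧ i + m ≤ n ∧ t * m ≤ ∑ j ∈ Ico i (i + m), g j) (n0 : ℕ) (hn0 : ∀ i ∈ Bad, n0 ≤ i) :
    t * Bad.card ≤ ∑ i ∈ Ico n0 n, g i := by
  by_cases ht : t < 0
  · have h1 : t * Bad.card ≤ 0 := mul_nonpos_of_nonpos_of_nonneg ht.le (Nat.cast_nonneg _)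
    exact h1.trans (sum_nonneg fun i _ => hg i)
  push_neg at ht
  have key : ∀ d a : ℕ, n - a = d → t * (Bad.filter (fun i => a ≤ i)).card ≤ ∑ i ∈ Ico a n, g i := by
    intro d
    induction d using Nat.strong_induction_on with
    | _ d ih =>
      intro a ha
      by_cases han : n ≤ a
      · have h1 : Bad.filter (fun i => a ≤ i) = ∅ := by
          rw [filter_eq_empty_iff]
          intro i hi hai
          obtain ⟨m, hm1, hm2, _⟩ := hB i hi
          omega
        rw [h1]
        simp only [card_empty, Nat.cast_zero, mul_zero]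
        exact sum_nonneg fun i _ => hg i
      push_neg at han
      by_cases haB : a ∈ Bad
      · obtain ⟨m, hm1, hm2, hm3⟩ := hB a haB
        have h1 := ih (n - (a + m)) (by omega) (a + m) rfl
        have h2 : (Bad.filter (fun i => a ≤ i)).card ≤ m + (Bad.filter (fun i => a + m ≤ i)).card := by
          have h3 : Bad.filter (fun i => a ≤ i) ⊆ Ico a (a + m) ∪ Bad.filter (fun i => a + m ≤ i) := by
            intro i hi
            rw [mem_filter] at hi
            rw [mem_union, mem_Ico, mem_filter]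
            by_cases h4 : i < a + m
            · left; omega
            · right; exact ⟨hi.1, by omega⟩
          refine (card_le_card h3).trans ((card_union_le _ _).trans ?_)
          rw [Nat.card_Ico]
          omega
        have h3 : ∑ i ∈ Ico a n, g i = ∑ i ∈ Ico a (a + m), g i + ∑ i ∈ Ico (a + m) n, g i :=
          (sum_Ico_consecutive g (by omega) hm2).symm
        have h4 : ((Bad.filter (fun i => a ≤ i)).card : ℝ) ≤ m + (Bad.filter (fun i => a + m ≤ i)).card := by
          exact_mod_cast h2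
        have h5 := mul_le_mul_of_nonneg_left h4 ht
        rw [mul_add] at h5
        rw [h3]
        linarith
      · have h1 := ih (n - (a + 1)) (by omega) (a + 1) rfl
        have h2 : Bad.filter (fun i => a ≤ i) = Bad.filter (fun i => a + 1 ≤ i) := by
          apply filter_congr
          intro i hi
          constructor
          · intro h
            rcases Nat.lt_or_ge a i with h3 | h3
            · exact h3
            · have : i = a := by omega
              rw [this] at hi
              exact absurd hi haB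
          · intro h; omega
        have h3 : ∑ i ∈ Ico a n, g i = g a + ∑ i ∈ Ico (a + 1) n, g i := sum_eq_sum_Ico_succ_bot han g
        rw [h2, h3]
        linarith [hg a]
  have h1 := key (n - n0) n0 rfl
  rwa [filter_true_of_mem hn0] at h1

/-- the sums of products over tuples -/
lemma sum_prod_tuples (A : Finset ℕ) (k : ℕ) (f : ℕ → ℝ) :
    ∑ a ∈ Fintype.piFinset (fun _ : Fin k => A), ∏ j, f (a j) = (∑ a ∈ A, f a) ^ k := by
  rw [← Finset.prod_univ_sum]
  simp

lemma card_tuples (A : Finset ℕ) (k : ℕ) : ((Fintype.piFinset (fun _ : Fin k => A)).card : ℝ) = (A.card : ℝ) ^ k := by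
  rw [Fintype.card_piFinset]
  simp

lemma exp_quad {u : ℝ} (h1 : -1 ≤ u) (h2 : u ≤ 1) : Real.exp u ≤ 1 + u + u ^ 2 := by
  have h := Real.abs_exp_sub_one_sub_id_le (x := u) (abs_le.2 ⟨h1, h2⟩)
  have := (abs_le.1 h).2
  linarith

/-- one-sided Chernoff bound for random tuples -/
lemma chern1 (A : Finset ℕ) (k : ℕ) (Y : ℕ → ℝ) (M μ d : ℝ) (hM : 1 ≤ M) (hd : 0 < d) (hdM : d ≤ M) (hY : ∀ a ∈ A, |Y a| ≤ M)
    (hμ : ∑ a ∈ A, Y a ≤ μ * A.card) (hμd : μ ≤ d / 4) :
    ((((Fintype.piFinset (fun _ : Fin k => A)).filter (fun a => d * k < ∑ j, Y (a j))).card : ℝ)) ≤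
      Real.exp (-(d ^ 2 / (8 * M ^ 2) * k)) * (A.card : ℝ) ^ k := by
  classical
  obtain ⟨s, hs⟩ : ∃ s : ℝ, s = d / (4 * M ^ 2) := ⟨_, rfl⟩
  have hM2 : 0 < M ^ 2 := by positivity
  have hs0 : 0 < s := by rw [hs]; positivity
  have hsM : s * M ≤ 1 := by
    rw [hs, div_mul_eq_mul_div, div_le_one (by positivity)]
    nlinarith only [hdM, hM, hd]
  have h1 : ∀ a ∈ A, Real.exp (s * Y a) ≤ 1 + s * Y a + s ^ 2 * M ^ 2 := by
    intro a ha
    have h2 := abs_le.1 (hY a ha)
    have h3 : s * Y a ≤ 1 := (mul_le_mul_of_nonneg_left h2.2 hs0.le).trans hsM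
    have h4 : -1 ≤ s * Y a := by
      have := mul_le_mul_of_nonneg_left h2.1 hs0.le
      linarith [mul_neg s M]
    refine (exp_quad h4 h3).trans ?_
    have h5 : (Y a) ^ 2 ≤ M ^ 2 := by
      rw [← sq_abs]; exact pow_le_pow_left₀ (abs_nonneg _) (hY a ha) 2
    have h6 := mul_le_mul_of_nonneg_left h5 (sq_nonneg s)
    linarith [mul_pow s (Y a) 2]
  have h2 : ∑ a ∈ A, Real.exp (s * Y a) ≤ A.card * Real.exp (s * μ + s ^ 2 * M ^ 2) := by
    calc ∑ a ∈ A, Real.exp (s * Y a) ≤ ∑ a ∈ A, (1 + s * Y a + s ^ 2 * M ^ 2) := sum_le_sum h1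
      _ = A.card * (1 + s ^ 2 * M ^ 2) + s * ∑ a ∈ A, Y a := by
          rw [sum_add_distrib, sum_add_distrib, ← mul_sum]
          simp only [sum_const, nsmul_eq_mul]
          ring
      _ ≤ A.card * (1 + s ^ 2 * M ^ 2) + s * (μ * A.card) := by
          have := mul_le_mul_of_nonneg_left hμ hs0.le
          linarith
      _ = A.card * ((s * μ + s ^ 2 * M ^ 2) + 1) := by ring
      _ ≤ A.card * Real.exp (s * μ + s ^ 2 * M ^ 2) :=
          mul_le_mul_of_nonneg_left (Real.add_one_le_exp _) (Nat.cast_nonneg _)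
  have h3 : ((((Fintype.piFinset (fun _ : Fin k => A)).filter (fun a => d * k < ∑ j, Y (a j))).card : ℝ)) * Real.exp (s * (d * k)) ≤
      (∑ a ∈ A, Real.exp (s * Y a)) ^ k := by
    rw [← sum_prod_tuples]
    calc ((((Fintype.piFinset (fun _ : Fin k => A)).filter (fun a => d * k < ∑ j, Y (a j))).card : ℝ)) * Real.exp (s * (d * k))
        = ∑ a ∈ (Fintype.piFinset (fun _ : Fin k => A)).filter (fun a => d * k < ∑ j, Y (a j)), Real.exp (s * (d * k)) := by
          rw [sum_const, nsmul_eq_mul]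
      _ ≤ ∑ a ∈ (Fintype.piFinset (fun _ : Fin k => A)).filter (fun a => d * k < ∑ j, Y (a j)), ∏ j, Real.exp (s * Y (a j)) := by
          apply sum_le_sum
          intro a ha
          rw [mem_filter] at ha
          rw [← Real.exp_sum, ← mul_sum]
          exact Real.exp_le_exp.2 (mul_le_mul_of_nonneg_left ha.2.le hs0.le)
      _ ≤ ∑ a ∈ Fintype.piFinset (fun _ : Fin k => A), ∏ j, Real.exp (s * Y (a j)) := by
          apply sum_le_sum_of_subset_of_nonneg (filter_subset _ _)
          intro a _ _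
          exact prod_nonneg fun j _ => (Real.exp_pos _).le
  have h4 : (∑ a ∈ A, Real.exp (s * Y a)) ^ k ≤ (A.card : ℝ) ^ k * Real.exp (k * (s * μ + s ^ 2 * M ^ 2)) := by
    refine (pow_le_pow_left₀ (sum_nonneg fun a _ => (Real.exp_pos _).le) h2 k).trans (le_of_eq ?_)
    rw [mul_pow, ← Real.exp_nat_mul]
  have h5 := h3.trans h4
  rw [← le_div_iff₀ (Real.exp_pos _)] at h5
  refine h5.trans (le_of_eq_of_le (b := (A.card : ℝ) ^ k * Real.exp (k * (s * μ + s ^ 2 * M ^ 2) - s * (d * k))) ?_ ?_)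
  · rw [Real.exp_sub]; ring
  · rw [mul_comm]
    apply mul_le_mul_of_nonneg_right _ (by positivity)
    apply Real.exp_le_exp.2
    have e1 : s * (M ^ 2) = d / 4 := by rw [hs]; field_simp
    have e2 : d ^ 2 / (8 * M ^ 2) = s * (d / 2) := by rw [hs]; field_simp; ring
    rw [e2]
    have e3 : (k : ℝ) * (s * μ + s ^ 2 * M ^ 2) - s * (d * k) = k * s * (μ + s * M ^ 2 - d) := by ring
    rw [e3, e1]
    have h6 : μ + d / 4 - d ≤ -(d / 2) := by linarith
    have h7 : 0 ≤ (k : ℝ) * s := by positivity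
    have h8 := mul_le_mul_of_nonneg_left h6 h7
    linarith

/-- two-sided Chernoff bound for random tuples -/
lemma chern (A : Finset ℕ) (k : ℕ) (Y : ℕ → ℝ) (M μ d : ℝ) (hM : 1 ≤ M) (hd : 0 < d) (hdM : d ≤ M) (hY : ∀ a ∈ A, |Y a| ≤ M)
    (hμ : |∑ a ∈ A, Y a| ≤ μ * A.card) (hμd : μ ≤ d / 4) :
    ((((Fintype.piFinset (fun _ : Fin k => A)).filter (fun a => d * k < |∑ j, Y (a j)|)).card : ℝ)) ≤
      2 * Real.exp (-(d ^ 2 / (8 * M ^ 2) * k)) * (A.card : ℝ) ^ k := by
  classical
  have h1 := chern1 A k Y M μ d hM hd hdM hY ((le_abs_self _).trans hμ) hμd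
  have h2 := chern1 A k (fun a => - Y a) M μ d hM hd hdM (fun a ha => by rw [abs_neg]; exact hY a ha)
    (by rw [sum_neg_distrib]; exact (neg_le_abs _).trans hμ) hμd
  have h3 : (Fintype.piFinset (fun _ : Fin k => A)).filter (fun a => d * k < |∑ j, Y (a j)|) ⊆
      (Fintype.piFinset (fun _ : Fin k => A)).filter (fun a => d * k < ∑ j, Y (a j)) ∪
      (Fintype.piFinset (fun _ : Fin k => A)).filter (fun a => d * k < ∑ j, (fun a => - Y a) (a j)) := by
    intro a ha
    rw [mem_filter, lt_abs] at ha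
    rw [mem_union, mem_filter, mem_filter]
    rcases ha.2 with h | h
    · left; exact ⟨ha.1, h⟩
    · right; refine ⟨ha.1, ?_⟩
      simp only [sum_neg_distrib]
      exact h
  have h4 := (card_le_card h3).trans (card_union_le _ _)
  have h5 : ((((Fintype.piFinset (fun _ : Fin k => A)).filter (fun a => d * k < |∑ j, Y (a j)|)).card : ℝ)) ≤
      ((Fintype.piFinset (fun _ : Fin k => A)).filter (fun a => d * k < ∑ j, Y (a j))).card +
      ((Fintype.piFinset (fun _ : Fin k => A)).filter (fun a => d * k < ∑ j, (fun a => - Y a) (a j))).card := by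
    exact_mod_cast h4
  linarith

end Pool.Agent.H15.FD
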