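import Pool.Agent.H15.FD.Sv2
import Pool.Agent.Results.MP_711652_nt.PolylogPrimeDilations

/-! The average over the whole set of dilations is as expected in all but few cells. -/

set_option autoImplicit false

namespace Pool.Agent.H15.FD
open Finset Filter

/-- the increment of Chebyshev's function over a dilated cell -/
noncomputable def St (h : ℝ) (a i : ℕ) : ℝ :=
  Chebyshev.theta (a * ((i + 1) * h)) - Chebyshev.theta (a * (i * h))

lemma mean_one (B B' : ℕ) : ∃ (C : ℕ) (N₀ : ℝ), ∀ (N N' P h : ℝ) (A : Finset ℕ) (n0 n : ℕ), N₀ ≤ N → N / 2 ≤ N' → N' ≤ 2 * N →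
    Real.log N ^ C ≤ P → P ≤ N ^ B → (∀ a ∈ A, a.Prime ∧ P / 2 < a ∧ (a : ℝ) ≤ P) → P / Real.log N ^ B ≤ A.card →
    1 / P ≤ h → h ≤ 1 →
    (((Ico n0 n).filter (fun i : ℕ => (N' ≤ i * h ∧ i * h ≤ 2 * N') ∧
      h * (∑ a ∈ A, (a : ℝ)) / Real.log N ^ B' < |∑ a ∈ A, St h a i - h * ∑ a ∈ A, (a : ℝ)|)).card : ℝ) ≤
      2 * (N / h / Real.log N ^ (B' + 1)) := by
  classical
  obtain ⟨C', N₁, hR⟩ := Pool.Agent.Results.MP_711652_nt.PolylogPrimeDilations.result (2 * (B + B' + 1))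
  have hev : ∀ᶠ N : ℝ in atTop, 2 * N₁ ≤ N ∧ 4 ≤ Real.log N ∧ 2 ^ (2 * C' + 1) * Real.log N ^ (2 * C') ≤ N ^ (1 : ℝ) ∧ 4 ≤ N :=
    (eventually_ge_atTop _).and ((Real.tendsto_log_atTop.eventually_ge_atTop _).and
      ((ev_pow _ _ 1 one_pos).and (eventually_ge_atTop _)))
  obtain ⟨N₀, hN₀⟩ := eventually_atTop.1 hev
  refine ⟨2 * C', N₀, ?_⟩
  intro N N' P h A n0 n hN hN1 hN2 hCP hPN hA hcard hh hh1
  obtain ⟨hE1, hE2, hE3, hE4⟩ := hN₀ N hN
  obtain ⟨L, hL⟩ : ∃ L : ℝ, L = Real.log N := ⟨_, rfl⟩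
  obtain ⟨L', hL'⟩ : ∃ L' : ℝ, L' = Real.log N' := ⟨_, rfl⟩
  have hR' := hR N' P h A
  rw [← hL] at hE2 hE3 hCP hcard ⊢
  rw [← hL'] at hR'
  rw [Real.rpow_one] at hE3
  have hNp : 0 < N := by linarith
  have hN'p : 0 < N' := by linarith
  have hL1 : L - 1 ≤ L' := by
    have h1 : Real.log (N / 2) ≤ L' := by rw [hL']; exact Real.log_le_log (by linarith) hN1
    rw [Real.log_div hNp.ne' (by norm_num), ← hL] at h1
    have := Real.log_two_lt_d9
    linarith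
  have hL2 : L' ≤ L + 1 := by
    have h1 : L' ≤ Real.log (2 * N) := by rw [hL']; exact Real.log_le_log hN'p hN2
    rw [Real.log_mul (by norm_num) hNp.ne', ← hL] at h1
    have := Real.log_two_lt_d9
    linarith
  have hL0 : 0 < L := by linarith
  have hL'0 : 0 < L' := by linarith
  have hL'1 : 1 ≤ L' := by linarith
  have hL1' : 1 ≤ L := by linarith
  have hLL : L ≤ L' ^ 2 := by nlinarith only [hL1, hE2]
  have hL'L : L' ≤ L ^ 2 := by nlinarith only [hL2, hE2]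
  have hPp : 0 < P := lt_of_lt_of_le (by positivity) hCP
  have hhp : 0 < h := lt_of_lt_of_le (by positivity) hh
  have hLB : L ^ B ≤ L' ^ (2 * (B + B' + 1)) := by
    calc L ^ B ≤ (L' ^ 2) ^ B := pow_le_pow_left₀ hL0.le hLL B
      _ = L' ^ (2 * B) := by rw [← pow_mul]
      _ ≤ L' ^ (2 * (B + B' + 1)) := pow_le_pow_right₀ hL'1 (by omega)
  have hLB' : L ^ (B' + 1) ≤ L' ^ (2 * (B + B' + 1)) := by
    calc L ^ (B' + 1) ≤ (L' ^ 2) ^ (B' + 1) := pow_le_pow_left₀ hL0.le hLL _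
      _ = L' ^ (2 * (B' + 1)) := by rw [← pow_mul]
      _ ≤ L' ^ (2 * (B + B' + 1)) := pow_le_pow_right₀ hL'1 (by omega)
  obtain ⟨T, hT⟩ : ∃ T : ℝ, T = ∑ a ∈ A, (a : ℝ) := ⟨_, rfl⟩
  have hT0 : 0 ≤ T := by rw [hT]; exact sum_nonneg fun _ _ => Nat.cast_nonneg _
  obtain ⟨S, hS⟩ : ∃ S : Finset ℕ, S = (Ico n0 n).filter (fun i : ℕ => (N' ≤ i * h ∧ i * h ≤ 2 * N') ∧
      h * (∑ a ∈ A, (a : ℝ)) / L ^ B' < |∑ a ∈ A, St h a i - h * ∑ a ∈ A, (a : ℝ)|) := ⟨_, rfl⟩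
  rw [← hS]
  have hinj : Set.InjOn (fun i : ℕ => (i : ℝ) * h) S := by
    intro i _ j _ hij
    simp only at hij
    have := mul_right_cancel₀ hhp.ne' hij
    exact_mod_cast this
  obtain ⟨X', hX', hX'c, hX'b⟩ := hR' (S.image (fun i : ℕ => (i : ℝ) * h)) (by linarith)
    (by
      refine le_trans ?_ hCP
      calc L' ^ C' ≤ (L ^ 2) ^ C' := pow_le_pow_left₀ hL'0.le hL'L C'
        _ = L ^ (2 * C') := by rw [← pow_mul])
    (by
      refine hPN.trans ?_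
      have h1 : N ≤ N' ^ 2 := by nlinarith only [hN1, hE4]
      calc N ^ B ≤ (N' ^ 2) ^ B := pow_le_pow_left₀ hNp.le h1 B
        _ = N' ^ (2 * B) := by rw [← pow_mul]
        _ ≤ N' ^ (2 * (B + B' + 1)) := pow_le_pow_right₀ (by linarith) (by omega))
    hA
    ((div_le_div_of_nonneg_left hPp.le (by positivity) hLB).trans hcard)
    (by
      refine le_trans ?_ hh
      apply one_div_le_one_div_of_le hPp
      have : 1 ≤ L' ^ (2 * (B + B' + 1)) := one_le_pow₀ hL'1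
      nlinarith only [this, hPp])
    hh1
    (by
      intro x hx
      rw [mem_image] at hx
      obtain ⟨i, hi, rfl⟩ := hx
      rw [hS, mem_filter] at hi
      exact hi.2.1)
    (by
      intro x hx x' hx' hne
      rw [mem_image] at hx hx'
      obtain ⟨i, hi, rfl⟩ := hx
      obtain ⟨j, hj, rfl⟩ := hx'
      have hij : i ≠ j := by rintro rfl; exact hne rfl
      rw [← sub_mul, abs_mul, abs_of_pos hhp]
      have h1 : (1 : ℝ) ≤ |(i : ℝ) - j| := by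
        have h2 : (1 : ℤ) ≤ |(i : ℤ) - j| := Int.one_le_abs (by omega)
        exact_mod_cast h2
      nlinarith only [h1, hhp])
  have hSX : S.image (fun i : ℕ => (i : ℝ) * h) ⊆ X' := by
    intro x hx
    by_contra hxX
    have h1 := hX'b x hx hxX h le_rfl (by
      refine hh1.trans ?_
      rw [one_le_div (by positivity)]
      have h2 : L' ^ C' ≤ (L ^ 2) ^ C' := pow_le_pow_left₀ hL'0.le hL'L C'
      rw [← pow_mul] at h2
      have h3 : (2 : ℝ) ≤ 2 ^ (2 * C' + 1) := by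
        calc (2 : ℝ) = 2 ^ 1 := (pow_one 2).symm
          _ ≤ 2 ^ (2 * C' + 1) := pow_le_pow_right₀ (by norm_num) (by omega)
      have h4 : 0 < L ^ (2 * C') := by positivity
      nlinarith only [h2, h3, h4, hE3, hN1])
    rw [mem_image] at hx
    obtain ⟨i, hi, rfl⟩ := hx
    rw [hS, mem_filter] at hi
    have h2 := hi.2.2
    rw [← hT] at h1 h2
    have h3 : ∑ a ∈ A, ∑ p ∈ (Finset.Ioc ⌊(a : ℝ) * ((i : ℝ) * h)⌋₊ ⌊(a : ℝ) * ((i : ℝ) * h + h)⌋₊).filter Nat.Prime, Real.log p =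
        ∑ a ∈ A, St h a i := by
      apply sum_congr rfl
      intro a _
      unfold St
      rw [theta_sub _ _ (by positivity) (by
        apply mul_le_mul_of_nonneg_left _ (Nat.cast_nonneg a)
        linarith [add_mul (i : ℝ) 1 h])]
      have : (i : ℝ) * h + h = (i + 1) * h := by ring
      rw [this]
    rw [h3] at h1
    have h4 : h * T / L' ^ (2 * (B + B' + 1)) ≤ h * T / L ^ B' := by
      apply div_le_div_of_nonneg_left (by positivity) (by positivity)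
      exact (pow_le_pow_right₀ hL1' (by omega)).trans hLB'
    linarith
  have h1 : (S.card : ℝ) ≤ X'.card := by
    rw [← card_image_of_injOn hinj]
    exact_mod_cast card_le_card hSX
  refine h1.trans (hX'c.trans ?_)
  have h2 : N' / (h * L' ^ (2 * (B + B' + 1))) ≤ 2 * N / (h * L ^ (B' + 1)) := by
    apply div_le_div₀ (by positivity) hN2 (by positivity)
    exact mul_le_mul_of_nonneg_left hLB' hhp.le
  refine h2.trans (le_of_eq ?_)
  field_simp

/-- The average over the whole set of dilations is as expected in all but few cells. -/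
theorem mean_cells (B B' : ℕ) : ∃ (C : ℕ) (N₀ : ℝ), ∀ (N P h : ℝ) (A : Finset ℕ) (n0 n : ℕ), N₀ ≤ N →
    Real.log N ^ C ≤ P → P ≤ N ^ B → (∀ a ∈ A, a.Prime ∧ P / 2 < a ∧ (a : ℝ) ≤ P) → P / Real.log N ^ B ≤ A.card →
    1 / P ≤ h → h ≤ 1 → N / 2 ≤ n0 * h → n * h ≤ 4 * N →
    (((Ico n0 n).filter (fun i : ℕ =>
      h * (∑ a ∈ A, (a : ℝ)) / Real.log N ^ B' < |∑ a ∈ A, St h a i - h * ∑ a ∈ A, (a : ℝ)|)).card : ℝ) ≤
      N / h / Real.log N ^ B' := by
  classical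
  obtain ⟨C, N₁, hR⟩ := mean_one B B'
  have hev : ∀ᶠ N : ℝ in atTop, N₁ ≤ N ∧ 6 ≤ Real.log N ∧ 1 ≤ N :=
    (eventually_ge_atTop _).and ((Real.tendsto_log_atTop.eventually_ge_atTop _).and (eventually_ge_atTop _))
  obtain ⟨N₀, hN₀⟩ := eventually_atTop.1 hev
  refine ⟨C, N₀, ?_⟩
  intro N P h A n0 n hN hCP hPN hA hcard hh hh1 hn0 hn
  obtain ⟨hE1, hE2, hE3⟩ := hN₀ N hN
  have a1 := hR N (N / 2) P h A n0 n hE1 le_rfl (by linarith) hCP hPN hA hcard hh hh1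
  have a2 := hR N N P h A n0 n hE1 (by linarith) (by linarith) hCP hPN hA hcard hh hh1
  have a3 := hR N (2 * N) P h A n0 n hE1 (by linarith) le_rfl hCP hPN hA hcard hh hh1
  obtain ⟨L, hL⟩ : ∃ L : ℝ, L = Real.log N := ⟨_, rfl⟩
  rw [← hL] at hE2 hCP hcard a1 a2 a3 ⊢
  have hNp : 0 < N := by linarith
  have hPp : 0 < P := lt_of_lt_of_le (by positivity) hCP
  have hhp : 0 < h := lt_of_lt_of_le (by positivity) hh
  have hsub : (Ico n0 n).filter (fun i : ℕ =>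
      h * (∑ a ∈ A, (a : ℝ)) / L ^ B' < |∑ a ∈ A, St h a i - h * ∑ a ∈ A, (a : ℝ)|) ⊆
      ((Ico n0 n).filter (fun i : ℕ => (N / 2 ≤ i * h ∧ i * h ≤ 2 * (N / 2)) ∧
      h * (∑ a ∈ A, (a : ℝ)) / L ^ B' < |∑ a ∈ A, St h a i - h * ∑ a ∈ A, (a : ℝ)|) ∪
      (Ico n0 n).filter (fun i : ℕ => (N ≤ i * h ∧ i * h ≤ 2 * N) ∧
      h * (∑ a ∈ A, (a : ℝ)) / L ^ B' < |∑ a ∈ A, St h a i - h * ∑ a ∈ A, (a : ℝ)|)) ∪
      (Ico n0 n).filter (fun i : ℕ => (2 * N ≤ i * h ∧ i * h ≤ 2 * (2 * N)) ∧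
      h * (∑ a ∈ A, (a : ℝ)) / L ^ B' < |∑ a ∈ A, St h a i - h * ∑ a ∈ A, (a : ℝ)|) := by
    intro i hi
    rw [mem_filter, mem_Ico] at hi
    rw [mem_union, mem_union, mem_filter, mem_filter, mem_filter, mem_Ico]
    have h1 : (n0 : ℝ) * h ≤ i * h := mul_le_mul_of_nonneg_right (by exact_mod_cast hi.1.1) hhp.le
    have h2 : (i : ℝ) * h ≤ n * h := mul_le_mul_of_nonneg_right (by exact_mod_cast hi.1.2.le) hhp.le
    rcases le_total ((i : ℝ) * h) N with h3 | h3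
    · left; left; exact ⟨hi.1, ⟨by linarith, by linarith⟩, hi.2⟩
    · rcases le_total ((i : ℝ) * h) (2 * N) with h4 | h4
      · left; right; exact ⟨hi.1, ⟨h3, h4⟩, hi.2⟩
      · right; exact ⟨hi.1, ⟨h4, by linarith⟩, hi.2⟩
  have h1 := (card_le_card hsub).trans ((card_union_le _ _).trans (Nat.add_le_add_right (card_union_le _ _) _))
  have h2 : (((Ico n0 n).filter (fun i : ℕ =>
      h * (∑ a ∈ A, (a : ℝ)) / L ^ B' < |∑ a ∈ A, St h a i - h * ∑ a ∈ A, (a : ℝ)|)).card : ℝ) ≤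
      6 * (N / h / L ^ (B' + 1)) := by
    refine ((Nat.cast_le (α := ℝ)).2 h1).trans ?_
    push_cast
    linarith
  refine h2.trans ?_
  have h3 : 0 < N / h / L ^ (B' + 1) := by positivity
  have h4 : N / h / L ^ B' = L * (N / h / L ^ (B' + 1)) := by rw [pow_succ]; field_simp
  rw [h4]
  exact mul_le_mul_of_nonneg_right hE2 h3.le

end Pool.Agent.H15.FD
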