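import Pool.Graph.R_seed8.W301.SS.Good

/-! Few cells contain more than about four times the expected number of primes. -/

set_option autoImplicit false

namespace Pool.Agent.H15.FD
open Finset Pool.Agent.W301.SS

/-- integers behind which there are many primes -/
lemma bad_int (X D H : ℕ) (hD : 3 ≤ D) (hH : 1 ≤ H) (κ : ℝ) (hκ : 1 / Real.log D ≤ κ) :
    (((Ioc 0 X).filter (fun m => D ≤ m ∧ κ * H < pn m H)).card : ℝ) * (κ - 1 / Real.log D) ^ 2 ≤
      3 * (D : ℝ) ^ 4 + X / H * (1 + 4 * Real.log D) ^ 16 := by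
  obtain ⟨l, h1, h2, h3, h4, h5⟩ := sel D hD
  have hv := variance l h2 D (by omega) h3 h5 X H hH
  refine le_trans ?_ hv
  have hH0 : (0 : ℝ) < H := by exact_mod_cast hH
  calc (((Ioc 0 X).filter (fun m => D ≤ m ∧ κ * H < pn m H)).card : ℝ) * (κ - 1 / Real.log D) ^ 2
      = ∑ m ∈ (Ioc 0 X).filter (fun m => D ≤ m ∧ κ * H < pn m H), (κ - 1 / Real.log D) ^ 2 := by
        rw [sum_const, nsmul_eq_mul]
    _ ≤ ∑ m ∈ (Ioc 0 X).filter (fun m => D ≤ m ∧ κ * H < pn m H), (VV l D H m - mv l D) ^ 2 := by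
        apply sum_le_sum
        intro m hm
        rw [mem_filter] at hm
        have h6 := pn_le_VV h1 (by omega : 1 ≤ D) hH hm.2.1
        have h7 : κ < (pn m H : ℝ) / H := by rw [lt_div_iff₀ hH0]; exact hm.2.2
        exact pow_le_pow_left₀ (by linarith) (by linarith) 2
    _ ≤ ∑ m ∈ Ioc 0 X, (VV l D H m - mv l D) ^ 2 :=
        sum_le_sum_of_subset_of_nonneg (filter_subset _ _) (fun _ _ _ => sq_nonneg _)

/-- from cells to integers -/
lemma bad_cell (y : ℝ) (W H X D n0 n : ℕ) (hW : (W : ℝ) + 2 ≤ y) (hH : y + 2 + W ≤ H) (κ : ℝ) (hn : y * n ≤ X)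
    (hn0 : (D : ℝ) + W + 1 ≤ y * n0) (Bad : Finset ℕ)
    (hBad : ∀ i ∈ Bad, n0 ≤ i ∧ i < n ∧ κ * H < ((Ioc ⌊y * i⌋₊ ⌊y * (i + 1)⌋₊).filter Nat.Prime).card) :
    (Bad.card : ℝ) * (W + 1) ≤ ((Ioc 0 X).filter (fun m => D ≤ m ∧ κ * H < pn m H)).card := by
  classical
  obtain ⟨f, hf⟩ : ∃ f : ℕ → Finset ℕ, f = fun i : ℕ => Icc (⌊y * (i : ℝ)⌋₊ - W) ⌊y * (i : ℝ)⌋₊ := ⟨_, rfl⟩
  have hW0 : (0 : ℝ) ≤ W := Nat.cast_nonneg W
  have hy0 : 0 < y := by linarith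
  have hfl : ∀ i ∈ Bad, (D + W : ℕ) ≤ ⌊y * i⌋₊ := by
    intro i hi
    have h1 := (hBad i hi).1
    have h2 : y * n0 ≤ y * i := mul_le_mul_of_nonneg_left (by exact_mod_cast h1) hy0.le
    apply Nat.le_floor
    push_cast
    linarith
  have hsub : Bad.biUnion f ⊆ (Ioc 0 X).filter (fun m => D ≤ m ∧ κ * H < pn m H) := by
    intro m hm
    rw [mem_biUnion] at hm
    obtain ⟨i, hi, hm⟩ := hm
    rw [hf] at hm
    simp only [mem_Icc] at hm
    obtain ⟨h1, h2, h3⟩ := hBad i hi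
    have h4 := hfl i hi
    have hi0 : 0 ≤ y * i := by positivity
    have h5 := Nat.floor_le hi0
    have h6 := Nat.lt_floor_add_one (y * i)
    have h7 : (m : ℝ) ≤ ⌊y * i⌋₊ := by exact_mod_cast hm.2
    have h8 : ((⌊y * i⌋₊ - W : ℕ) : ℝ) ≤ m := by exact_mod_cast hm.1
    rw [Nat.cast_sub (by omega)] at h8
    have h9 : y * (i + 1) ≤ y * n := mul_le_mul_of_nonneg_left (by exact_mod_cast h2) hy0.le
    rw [mem_filter, mem_Ioc]
    have hWm : D ≤ m := by omega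
    have hmX : m ≤ X := by
      have : (m : ℝ) ≤ X := by nlinarith only [h7, h5, h9, hn, hy0]
      exact_mod_cast this
    have hm0 : 0 < m := by
      rcases Nat.eq_zero_or_pos m with h0 | h0
      · exfalso
        rw [h0] at h8
        have h10 : (⌊y * i⌋₊ : ℝ) ≤ W := by push_cast at h8; linarith
        have h11 : y * n0 ≤ y * i := mul_le_mul_of_nonneg_left (by exact_mod_cast h1) hy0.le
        have hD0 : (0 : ℝ) ≤ D := Nat.cast_nonneg D
        linarith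
      · exact h0
    refine ⟨⟨hm0, hmX⟩, hWm, h3.trans_le ?_⟩
    unfold pn
    have h10 : ⌊y * (i + 1)⌋₊ ≤ m + H := by
      have h11 : (⌊y * (i + 1)⌋₊ : ℝ) ≤ y * (i + 1) := Nat.floor_le (by positivity)
      have h12 : (⌊y * (i + 1)⌋₊ : ℝ) ≤ ((m + H : ℕ) : ℝ) := by push_cast; linarith
      exact_mod_cast h12
    have h13 : (Ioc ⌊y * i⌋₊ ⌊y * (i + 1)⌋₊).filter Nat.Prime ⊆ (Ioc m (m + H)).filter Nat.Prime := by
      apply filter_subset_filter
      exact Ioc_subset_Ioc hm.2 h10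
    exact_mod_cast card_le_card h13
  have hdis : (Bad : Set ℕ).PairwiseDisjoint f := by
    have key : ∀ i ∈ Bad, ∀ j ∈ Bad, i < j → Disjoint (f i) (f j) := by
      intro i hi j hj hij
      rw [disjoint_left]
      intro m hm hm'
      rw [hf] at hm hm'
      simp only [mem_Icc] at hm hm'
      have h4 := hfl j hj
      have h5 : (⌊y * i⌋₊ : ℝ) ≤ y * i := Nat.floor_le (by positivity)
      have h6 := Nat.lt_floor_add_one (y * j)
      have h7 : (m : ℝ) ≤ ⌊y * i⌋₊ := by exact_mod_cast hm.2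
      have h8 : ((⌊y * j⌋₊ - W : ℕ) : ℝ) ≤ m := by exact_mod_cast hm'.1
      rw [Nat.cast_sub (by omega)] at h8
      have h9 : y * (i + 1) ≤ y * j := mul_le_mul_of_nonneg_left (by exact_mod_cast hij) hy0.le
      linarith
    intro i hi j hj hne
    rcases lt_or_gt_of_ne hne with h | h
    · exact key i hi j hj h
    · exact (key j hj i hi h).symm
  have hcard : ∀ i ∈ Bad, ((W : ℝ) + 1) ≤ ((f i).card : ℝ) := by
    intro i hi
    rw [hf]
    simp only [Nat.card_Icc]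
    have h4 := hfl i hi
    have : W + 1 ≤ ⌊y * i⌋₊ + 1 - (⌊y * i⌋₊ - W) := by omega
    exact_mod_cast this
  calc (Bad.card : ℝ) * (W + 1) = ∑ i ∈ Bad, ((W : ℝ) + 1) := by rw [sum_const, nsmul_eq_mul]
    _ ≤ ∑ i ∈ Bad, ((f i).card : ℝ) := sum_le_sum hcard
    _ = ((Bad.biUnion f).card : ℝ) := by rw [card_biUnion (fun x hx y hy hne => hdis hx hy hne)]; push_cast; rfl
    _ ≤ _ := by exact_mod_cast card_le_card hsub

/-- a difference of values of Chebyshev's function -/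
lemma theta_sub (u v : ℝ) (_hu : 0 ≤ u) (huv : u ≤ v) :
    Chebyshev.theta v - Chebyshev.theta u = ∑ p ∈ (Ioc ⌊u⌋₊ ⌊v⌋₊).filter Nat.Prime, Real.log p := by
  have h1 : ⌊u⌋₊ ≤ ⌊v⌋₊ := Nat.floor_le_floor huv
  have h2 : Ioc 0 ⌊v⌋₊ = Ioc 0 ⌊u⌋₊ ∪ Ioc ⌊u⌋₊ ⌊v⌋₊ := by
    ext i; simp only [mem_union, mem_Ioc]; omega
  have h3 : Disjoint ((Ioc 0 ⌊u⌋₊).filter Nat.Prime) ((Ioc ⌊u⌋₊ ⌊v⌋₊).filter Nat.Prime) := by
    apply disjoint_filter_filter
    rw [disjoint_left]; intro i hi hi'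
    rw [mem_Ioc] at hi hi'; omega
  unfold Chebyshev.theta
  rw [h2, filter_union, sum_union h3]
  ring

lemma theta_diff_le (u v : ℝ) (hu : 0 ≤ u) (huv : u ≤ v) (X : ℝ) (hX : v ≤ X) :
    Chebyshev.theta v - Chebyshev.theta u ≤ ((Ioc ⌊u⌋₊ ⌊v⌋₊).filter Nat.Prime).card * Real.log X := by
  rw [theta_sub u v hu huv]
  calc ∑ p ∈ (Ioc ⌊u⌋₊ ⌊v⌋₊).filter Nat.Prime, Real.log p ≤ ∑ p ∈ (Ioc ⌊u⌋₊ ⌊v⌋₊).filter Nat.Prime, Real.log X := by
        apply sum_le_sum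
        intro p hp
        rw [mem_filter, mem_Ioc] at hp
        have h1 : (p : ℝ) ≤ v := (Nat.le_floor_iff (by linarith)).1 hp.1.2
        exact Real.log_le_log (by exact_mod_cast hp.2.pos) (by linarith)
    _ = _ := by rw [sum_const, nsmul_eq_mul]

end Pool.Agent.H15.FD
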