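import Pool.Agent.H15.FD.Sv

/-! Few cells contain more than about four times the expected number of primes. -/

set_option autoImplicit false

namespace Pool.Agent.H15.FD
open Finset Filter Pool.Agent.W301.SS

lemma ev_pow (k : ℕ) (c γ : ℝ) (hγ : 0 < γ) : ∀ᶠ N : ℝ in atTop, c * Real.log N ^ k ≤ N ^ γ := by
  have h1 : (fun x : ℝ => Real.log x ^ k) =o[atTop] (fun x : ℝ => x ^ γ) := by
    have := isLittleO_log_rpow_rpow_atTop (s := γ) (k : ℝ) hγ
    refine this.congr_left fun x => ?_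
    rw [Real.rpow_natCast]
  have h2 : ∀ᶠ x : ℝ in atTop, ‖Real.log x ^ k‖ ≤ (1 / (|c| + 1)) * ‖x ^ γ‖ :=
    h1.bound (by positivity)
  filter_upwards [h2, eventually_ge_atTop (1 : ℝ)] with N hN hN1
  have h3 : 0 ≤ Real.log N ^ k := pow_nonneg (Real.log_nonneg hN1) k
  have h4 : 0 ≤ N ^ γ := Real.rpow_nonneg (by linarith) _
  rw [Real.norm_of_nonneg h3, Real.norm_of_nonneg h4] at hN
  have h5 : c * Real.log N ^ k ≤ (|c| + 1) * Real.log N ^ k := by
    apply mul_le_mul_of_nonneg_right _ h3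
    linarith [le_abs_self c]
  refine h5.trans ?_
  have h6 : 0 < |c| + 1 := by positivity
  have h7 := mul_le_mul_of_nonneg_left hN h6.le
  rwa [← mul_assoc, mul_one_div_cancel h6.ne', one_mul] at h7

/-- Few cells contain more than about four times the expected number of primes. -/
theorem bad_cells (B B' : ℕ) (ε : ℝ) (hε : 0 < ε) (hε1 : ε ≤ 1) : ∃ N₀ : ℝ, ∀ (N P h : ℝ) (a n0 n : ℕ), N₀ ≤ N →
    1 ≤ P → P ≤ N ^ B → P / 2 < a → (a : ℝ) ≤ P → Real.log N ^ (B' + 20) ≤ a * h → h ≤ 1 → N / 2 ≤ n0 * h → n * h ≤ 4 * N →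
    (((Ico n0 n).filter (fun i : ℕ => (4 + ε) * (a * h) <
      Chebyshev.theta (a * ((i + 1) * h)) - Chebyshev.theta (a * (i * h)))).card : ℝ) ≤ N / h / Real.log N ^ B' := by
  obtain ⟨b, hb⟩ : ∃ b : ℝ, b = (B : ℝ) + 2 := ⟨_, rfl⟩
  obtain ⟨θ, hθ⟩ : ∃ θ : ℝ, θ = 1 / (4 + ε / 16) := ⟨_, rfl⟩
  obtain ⟨γ, hγ⟩ : ∃ γ : ℝ, γ = 1 - 4 * θ := ⟨_, rfl⟩
  have hθ0 : 0 < θ := by rw [hθ]; positivity
  have hθ1 : θ < 1 / 4 := by rw [hθ]; apply one_div_lt_one_div_of_lt (by norm_num); linarith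
  have hθ2 : 1 / 5 ≤ θ := by rw [hθ]; apply one_div_le_one_div_of_le (by positivity); linarith
  have hγ0 : 0 < γ := by rw [hγ]; linarith
  have hb0 : 2 ≤ b := by rw [hb]; have : (0 : ℝ) ≤ B := Nat.cast_nonneg B; linarith
  have hev : ∀ᶠ N : ℝ in atTop, 61440 * b ^ 2 / ε ^ 3 * Real.log N ^ (B' + 2) ≤ N ^ γ ∧
      400 / ε + 20480 * 5 ^ 16 * b ^ 18 / ε ^ 3 + 100 ≤ Real.log N ∧ 10 ^ 6 ≤ N :=
    (ev_pow _ _ γ hγ0).and ((Real.tendsto_log_atTop.eventually_ge_atTop _).and (eventually_ge_atTop _))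
  obtain ⟨N₀, hN₀⟩ := eventually_atTop.1 hev
  refine ⟨N₀, ?_⟩
  intro N P h a n0 n hN hP hPN haP haP2 hy hh hn0 hn
  obtain ⟨hE1, hE2, hE3⟩ := hN₀ N hN
  obtain ⟨L, hL⟩ : ∃ L : ℝ, L = Real.log N := ⟨_, rfl⟩
  rw [← hL] at hE1 hE2 hy ⊢
  have hNp : 0 < N := by linarith
  have hcc : 0 < 400 / ε := by positivity
  have hcc2 : 0 < 20480 * 5 ^ 16 * b ^ 18 / ε ^ 3 := by positivity
  have hL100 : 100 ≤ L := by linarith
  have hL0 : 0 < L := by linarith
  have hL1 : 1 ≤ L := by linarith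
  obtain ⟨y, hyd⟩ : ∃ y : ℝ, y = a * h := ⟨_, rfl⟩
  rw [← hyd] at hy
  have hyL : L ≤ y := by
    refine le_trans ?_ hy
    calc L = L ^ 1 := (pow_one L).symm
      _ ≤ L ^ (B' + 20) := pow_le_pow_right₀ hL1 (by omega)
  have hy0 : 0 < y := by linarith
  have ha0 : (0 : ℝ) < a := by linarith
  have hh0 : 0 < h := by
    rcases le_or_gt h 0 with h1 | h1
    · exfalso
      have : (a : ℝ) * h ≤ 0 := mul_nonpos_of_nonneg_of_nonpos ha0.le h1
      linarith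
    · exact h1
  -- the parameters
  obtain ⟨z, hz⟩ : ∃ z : ℝ, z = P * N := ⟨_, rfl⟩
  have hzN : N ≤ z := by rw [hz]; nlinarith only [hP, hNp]
  have hzP : P ≤ z / 10 ^ 6 := by rw [hz, le_div_iff₀ (by norm_num)]; exact mul_le_mul_of_nonneg_left hE3 (by linarith)
  obtain ⟨X, hX⟩ : ∃ X : ℕ, X = ⌊5 * z⌋₊ := ⟨_, rfl⟩
  have hX1 : (X : ℝ) ≤ 5 * z := by rw [hX]; exact Nat.floor_le (by linarith)
  have hX2 : 5 * z - 1 < X := by rw [hX]; linarith [Nat.lt_floor_add_one (5 * z)]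
  have hXN : N ≤ X := by linarith
  have hX0 : (0 : ℝ) < X := by linarith
  obtain ⟨lX, hlX⟩ : ∃ lX : ℝ, lX = Real.log X := ⟨_, rfl⟩
  have hlX1 : L ≤ lX := by rw [hlX, hL]; exact Real.log_le_log hNp hXN
  have hlX0 : 0 < lX := by linarith
  have hlX2 : lX ≤ b * L := by
    have h1 : (X : ℝ) ≤ N ^ (B + 2) := by
      refine hX1.trans ?_
      rw [hz, pow_add]
      have h2 : 5 * (P * N) ≤ N ^ B * (5 * N) := by
        have := mul_le_mul_of_nonneg_right hPN hNp.le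
        linarith
      refine h2.trans (mul_le_mul_of_nonneg_left ?_ (by positivity))
      nlinarith only [hE3]
    rw [hlX]
    refine (Real.log_le_log hX0 h1).trans (le_of_eq ?_)
    rw [Real.log_pow, ← hL, hb]
    push_cast
    ring
  obtain ⟨D, hD⟩ : ∃ D : ℕ, D = ⌊(X : ℝ) ^ θ⌋₊ := ⟨_, rfl⟩
  have hXθ0 : 0 < (X : ℝ) ^ θ := Real.rpow_pos_of_pos hX0 θ
  have hD1 : (D : ℝ) ≤ (X : ℝ) ^ θ := by rw [hD]; exact Nat.floor_le hXθ0.le
  have hD2 : (X : ℝ) ^ θ - 1 < D := by rw [hD]; linarith [Nat.lt_floor_add_one ((X : ℝ) ^ θ)]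
  have hXθ : 10 ≤ (X : ℝ) ^ θ := by
    have h1 : (10 : ℝ) = (10 ^ 5 : ℝ) ^ ((1 : ℝ) / 5) := by
      rw [← Real.rpow_natCast, ← Real.rpow_mul (by norm_num)]
      norm_num
    rw [h1]
    calc ((10 : ℝ) ^ 5) ^ ((1 : ℝ) / 5) ≤ (X : ℝ) ^ ((1 : ℝ) / 5) :=
          Real.rpow_le_rpow (by norm_num) (by linarith) (by norm_num)
      _ ≤ (X : ℝ) ^ θ := Real.rpow_le_rpow_of_exponent_le (by linarith) hθ2
  have hD3 : 3 ≤ D := by
    have : (3 : ℝ) ≤ D := by linarith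
    exact_mod_cast this
  have hD0 : (0 : ℝ) < D := by linarith
  have hlogD : θ * lX - 1 ≤ Real.log D := by
    have h1 : (X : ℝ) ^ θ / 2 ≤ D := by linarith
    have h2 := Real.log_le_log (by positivity) h1
    rw [Real.log_div hXθ0.ne' (by norm_num), Real.log_rpow hX0, ← hlX] at h2
    have := Real.log_two_lt_d9
    linarith
  have hlogD2 : Real.log D ≤ lX := by
    rw [hlX]
    apply Real.log_le_log hD0
    refine hD1.trans ?_
    calc (X : ℝ) ^ θ ≤ (X : ℝ) ^ (1 : ℝ) := Real.rpow_le_rpow_of_exponent_le (by linarith) (by linarith)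
      _ = X := Real.rpow_one _
  have hlogD0 : 0 ≤ Real.log D := Real.log_nonneg (by linarith)
  have h400 : 400 ≤ ε * lX := by
    have h1 : 400 / ε ≤ lX := by linarith
    rw [div_le_iff₀ hε] at h1
    linarith
  -- `1 / log D`
  have hDκ : 1 / Real.log D ≤ (4 + ε / 8) / lX := by
    have h1 : lX ≤ (4 + ε / 8) * (θ * lX - 1) := by
      have h2 : θ * (4 + ε / 16) = 1 := by rw [hθ]; field_simp
      have h3 : (4 + ε / 8) * (θ * lX - 1) = θ * (4 + ε / 16) * lX + ε / 16 * (θ * lX) - (4 + ε / 8) := by ring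
      rw [h3, h2]
      have h4 : 80 ≤ ε * (θ * lX) := by
        have h5 : 1 / 5 * lX ≤ θ * lX := mul_le_mul_of_nonneg_right hθ2 hlX0.le
        nlinarith only [h5, h400, hε]
      linarith
    have h2 : lX ≤ (4 + ε / 8) * Real.log D := h1.trans (mul_le_mul_of_nonneg_left hlogD (by positivity))
    have h3 : 0 < Real.log D := by
      by_contra hc
      push Not at hc
      have : Real.log D = 0 := le_antisymm hc hlogD0
      rw [this] at h2
      linarith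
    rw [div_le_div_iff₀ h3 hlX0]
    linarith
  obtain ⟨κ, hκ⟩ : ∃ κ : ℝ, κ = (4 + ε / 4) / lX := ⟨_, rfl⟩
  have hκ1 : ε / 8 / lX ≤ κ - 1 / Real.log D := by
    have h1 : κ - (4 + ε / 8) / lX = ε / 8 / lX := by rw [hκ, ← sub_div]; ring_nf
    linarith
  have hκ2 : 0 < ε / 8 / lX := by positivity
  obtain ⟨W, hW⟩ : ∃ W : ℕ, W = ⌊ε * y / 16⌋₊ := ⟨_, rfl⟩
  have hW1 : (W : ℝ) ≤ ε * y / 16 := by rw [hW]; exact Nat.floor_le (by positivity)
  have hW2 : ε * y / 16 < W + 1 := by rw [hW]; exact Nat.lt_floor_add_one _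
  obtain ⟨H, hH⟩ : ∃ H : ℕ, H = ⌈y⌉₊ + 2 + W := ⟨_, rfl⟩
  have hH1 : y + 2 + W ≤ H := by rw [hH]; push_cast; linarith [Nat.le_ceil y]
  have hH2 : (H : ℝ) ≤ y + 3 + W := by rw [hH]; push_cast; linarith [Nat.ceil_lt_add_one hy0.le]
  have hεy : 100 ≤ ε * y := by
    have h1 : 400 / ε ≤ y := by linarith
    rw [div_le_iff₀ hε] at h1
    linarith
  have hεy1 : ε * y ≤ y := mul_le_of_le_one_left hy0.le hε1
  have hH3 : (H : ℝ) ≤ y * (1 + ε / 8) := by linarith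
  have hH0 : (0 : ℝ) < H := by linarith
  have hHn : 1 ≤ H := by rw [hH]; omega
  have hyn : y * n ≤ X := by
    have h1 : y * n = a * (n * h) := by rw [hyd]; ring
    rw [h1]
    have h2 : (a : ℝ) * (n * h) ≤ P * (4 * N) := mul_le_mul haP2 hn (by positivity) (by linarith)
    have h3 : P * (4 * N) = 4 * z := by rw [hz]; ring
    linarith
  have hyn0 : (D : ℝ) + W + 1 ≤ y * n0 := by
    have h1 : y * n0 = a * (n0 * h) := by rw [hyd]; ring
    have h2 : P / 2 * (N / 2) ≤ a * (n0 * h) := mul_le_mul haP.le hn0 (by positivity) (by linarith)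
    have h3 : P / 2 * (N / 2) = z / 4 := by rw [hz]; ring
    have h4 : (W : ℝ) ≤ z / 16 := by
      have : y ≤ P := by rw [hyd]; nlinarith only [haP2, hh, ha0, hh0]
      linarith
    have h5 : (D : ℝ) ≤ z / 16 := by
      have h6 : (X : ℝ) ^ θ ≤ (X : ℝ) ^ ((1 : ℝ) / 2) := Real.rpow_le_rpow_of_exponent_le (by linarith) (by linarith)
      rw [← Real.sqrt_eq_rpow] at h6
      have h7 : √(X : ℝ) ≤ z / 16 := by
        rw [Real.sqrt_le_left (by linarith)]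
        nlinarith only [hX1, hzN, hE3]
      linarith
    rw [h1]
    linarith
  have hBad := bad_cell y W H X D n0 n (by linarith) hH1 κ hyn hyn0
    ((Ico n0 n).filter (fun i : ℕ => (4 + ε) * (a * h) <
      Chebyshev.theta (a * ((i + 1) * h)) - Chebyshev.theta (a * (i * h)))) (by
    intro i hi
    rw [mem_filter, mem_Ico] at hi
    obtain ⟨⟨h1, h2⟩, h3⟩ := hi
    refine ⟨h1, h2, ?_⟩
    have e1 : (a : ℝ) * ((i + 1) * h) = y * (i + 1) := by rw [hyd]; ring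
    have e2 : (a : ℝ) * (i * h) = y * i := by rw [hyd]; ring
    rw [e1, e2, ← hyd] at h3
    have h4 := theta_diff_le (y * i) (y * (i + 1)) (by positivity) (by linarith) X
      ((mul_le_mul_of_nonneg_left (by exact_mod_cast h2) hy0.le).trans hyn)
    rw [← hlX] at h4
    have h5 := h3.trans_le h4
    have h6 : κ * H * lX ≤ (4 + ε) * y := by
      have h7 : κ * H * lX = (4 + ε / 4) * H := by rw [hκ]; field_simp
      rw [h7]
      have h8 := mul_le_mul_of_nonneg_left hH3 (by linarith : (0 : ℝ) ≤ 4 + ε / 4)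
      have h9 : ε * (ε * y) ≤ 1 * (ε * y) := mul_le_mul_of_nonneg_right hε1 (by positivity)
      have e3 : (4 + ε / 4) * (y * (1 + ε / 8)) = 4 * y + 3 / 4 * (ε * y) + 1 / 32 * (ε * (ε * y)) := by ring
      have e4 : (4 + ε) * y = 4 * y + ε * y := by ring
      have h10 : 0 < ε * y := by positivity
      rw [e3] at h8
      rw [e4]
      linarith
    have h7 : κ * H * lX < ((Ioc ⌊y * i⌋₊ ⌊y * (i + 1)⌋₊).filter Nat.Prime).card * lX := by linarith
    exact lt_of_mul_lt_mul_right h7 hlX0.le)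
  have hInt := bad_int X D H hD3 hHn κ (by linarith)
  obtain ⟨M, hM⟩ : ∃ M : ℝ, M = (((Ico n0 n).filter (fun i : ℕ => (4 + ε) * (a * h) <
      Chebyshev.theta (a * ((i + 1) * h)) - Chebyshev.theta (a * (i * h)))).card : ℝ) := ⟨_, rfl⟩
  rw [← hM] at hBad ⊢
  have hM0 : 0 ≤ M := by rw [hM]; positivity
  obtain ⟨Q, hQ⟩ : ∃ Q : ℝ, Q = (((Ioc 0 X).filter (fun m => D ≤ m ∧ κ * H < pn m H)).card : ℝ) := ⟨_, rfl⟩
  rw [← hQ] at hBad hInt
  have hQ0 : 0 ≤ Q := by rw [hQ]; positivity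
  have s1 : M * (ε * y / 16) * (ε / 8 / lX) ^ 2 ≤ 3 * (D : ℝ) ^ 4 + X / H * (1 + 4 * Real.log D) ^ 16 := by
    refine le_trans ?_ hInt
    have h1 : M * (ε * y / 16) ≤ Q := (mul_le_mul_of_nonneg_left hW2.le hM0).trans hBad
    have h2 : (ε / 8 / lX) ^ 2 ≤ (κ - 1 / Real.log D) ^ 2 := pow_le_pow_left₀ hκ2.le hκ1 2
    exact mul_le_mul h1 h2 (by positivity) hQ0
  have s2 : (D : ℝ) ^ 4 ≤ X * (1 / N ^ γ) := by
    have h1 : (D : ℝ) ^ 4 ≤ ((X : ℝ) ^ θ) ^ 4 := pow_le_pow_left₀ hD0.le hD1 4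
    have h2 : ((X : ℝ) ^ θ) ^ 4 = (X : ℝ) ^ (1 - γ) := by
      rw [← Real.rpow_natCast, ← Real.rpow_mul hX0.le]
      congr 1
      rw [hγ]; push_cast; ring
    rw [h2, Real.rpow_sub hX0, Real.rpow_one] at h1
    refine h1.trans ?_
    rw [div_eq_mul_one_div]
    apply mul_le_mul_of_nonneg_left _ hX0.le
    apply one_div_le_one_div_of_le (Real.rpow_pos_of_pos hNp γ)
    exact Real.rpow_le_rpow hNp.le hXN hγ0.le
  have s3 : (X : ℝ) / H * (1 + 4 * Real.log D) ^ 16 ≤ X * ((5 * (b * L)) ^ 16 / y) := by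
    have h1 : (1 + 4 * Real.log D) ^ 16 ≤ (5 * (b * L)) ^ 16 := pow_le_pow_left₀ (by linarith) (by linarith) 16
    have h2 : (X : ℝ) / H ≤ X / y := div_le_div_of_nonneg_left hX0.le hy0 (by linarith)
    calc (X : ℝ) / H * (1 + 4 * Real.log D) ^ 16 ≤ X / y * (5 * (b * L)) ^ 16 :=
          mul_le_mul h2 h1 (by positivity) (by positivity)
      _ = X * ((5 * (b * L)) ^ 16 / y) := by ring
  have s4 : M * (ε * y / 16) * (ε / 8 / lX) ^ 2 ≤ X * (3 * (1 / N ^ γ) + (5 * (b * L)) ^ 16 / y) := by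
    have : X * (3 * (1 / N ^ γ) + (5 * (b * L)) ^ 16 / y) = 3 * (X * (1 / N ^ γ)) + X * ((5 * (b * L)) ^ 16 / y) := by ring
    rw [this]; linarith
  have s5 : (X : ℝ) ≤ 10 * (y * (N / h)) := by
    have h1 : y * (N / h) = a * N := by rw [hyd]; field_simp
    rw [h1]
    have h2 : P / 2 * N ≤ a * N := mul_le_mul_of_nonneg_right haP.le hNp.le
    have h3 : P / 2 * N = z / 2 := by rw [hz]; ring
    linarith
  have hR0 : 0 ≤ 3 * (1 / N ^ γ) + (5 * (b * L)) ^ 16 / y := by positivity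
  have s6 : M * (ε ^ 3 / (10240 * (b * L) ^ 2)) ≤ N / h * (3 * (1 / N ^ γ) + (5 * (b * L)) ^ 16 / y) := by
    have h1 := s4.trans (mul_le_mul_of_nonneg_right s5 hR0)
    have h2 : M * (ε * y / 16) * (ε / 8 / lX) ^ 2 = y * (M * (ε ^ 3 / (1024 * lX ^ 2))) := by field_simp; ring
    have h3 : 10 * (y * (N / h)) * (3 * (1 / N ^ γ) + (5 * (b * L)) ^ 16 / y) =
      y * (10 * (N / h * (3 * (1 / N ^ γ) + (5 * (b * L)) ^ 16 / y))) := by ring
    rw [h2, h3] at h1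
    have h4 := le_of_mul_le_mul_left h1 hy0
    have h5 : ε ^ 3 / (10240 * (b * L) ^ 2) ≤ ε ^ 3 / (1024 * lX ^ 2) / 10 := by
      rw [div_div]
      apply div_le_div_of_nonneg_left (by positivity) (by positivity)
      have : lX ^ 2 ≤ (b * L) ^ 2 := pow_le_pow_left₀ hlX0.le hlX2 2
      linarith
    have h6 := mul_le_mul_of_nonneg_left h5 hM0
    linarith
  have hbL : 0 < b * L := by positivity
  have hLB : 0 < L ^ B' := by positivity
  have hNγ : 0 < N ^ γ := Real.rpow_pos_of_pos hNp γ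
  -- the two terms
  have t1 : 3 * (1 / N ^ γ) ≤ ε ^ 3 / (10240 * (b * L) ^ 2) * (1 / 2 / L ^ B') := by
    have h1 : 61440 * b ^ 2 * (L ^ B' * L ^ 2) ≤ N ^ γ * ε ^ 3 := by
      have h2 := hE1
      rw [div_mul_eq_mul_div, div_le_iff₀ (by positivity), pow_add] at h2
      exact h2
    rw [mul_one_div, div_div, div_mul_div_comm, div_le_div_iff₀ hNγ (by positivity)]
    have e1 : 3 * (10240 * (b * L) ^ 2 * (2 * L ^ B')) = 61440 * b ^ 2 * (L ^ B' * L ^ 2) := by ring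
    rw [e1]
    linarith
  have t2 : (5 * (b * L)) ^ 16 / y ≤ ε ^ 3 / (10240 * (b * L) ^ 2) * (1 / 2 / L ^ B') := by
    have h1 : (5 * (b * L)) ^ 16 / y ≤ (5 * (b * L)) ^ 16 / L ^ (B' + 20) :=
      div_le_div_of_nonneg_left (by positivity) (by positivity) hy
    refine h1.trans ?_
    rw [div_div, div_mul_div_comm, div_le_div_iff₀ (by positivity) (by positivity)]
    have h2 : 20480 * 5 ^ 16 * b ^ 18 ≤ ε ^ 3 * L := by
      have h3 : 20480 * 5 ^ 16 * b ^ 18 / ε ^ 3 ≤ L := by linarith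
      rw [div_le_iff₀ (by positivity)] at h3
      linarith
    have h3 : 20480 * 5 ^ 16 * b ^ 18 ≤ ε ^ 3 * (L * L) := by
      refine h2.trans (mul_le_mul_of_nonneg_left ?_ (by positivity))
      nlinarith only [hL1]
    have h4 := mul_le_mul_of_nonneg_right h3 (by positivity : 0 ≤ L ^ 18 * L ^ B')
    have e1 : (5 * (b * L)) ^ 16 * (10240 * (b * L) ^ 2 * (2 * L ^ B')) = 20480 * 5 ^ 16 * b ^ 18 * (L ^ 18 * L ^ B') := by ring
    have e2 : ε ^ 3 * 1 * L ^ (B' + 20) = ε ^ 3 * (L * L) * (L ^ 18 * L ^ B') := by rw [pow_add]; ring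
    rw [e1, e2]
    exact h4
  have s7 : M * (ε ^ 3 / (10240 * (b * L) ^ 2)) ≤ N / h / L ^ B' * (ε ^ 3 / (10240 * (b * L) ^ 2)) := by
    refine s6.trans ?_
    have h1 : 0 ≤ N / h := by positivity
    have h2 := mul_le_mul_of_nonneg_left (add_le_add t1 t2) h1
    refine h2.trans (le_of_eq ?_)
    field_simp
    ring
  exact le_of_mul_le_mul_right s7 (by positivity)

end Pool.Agent.H15.FD
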